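import Pool.Agent.Helper1x.FS.Stm

/-!
# The permanent of the block matrix
-/

namespace H1FS

open MvPolynomial H1CL

section

variable {κ : Type} [CommRing κ]

lemma top_mul_C {K S : Type} [Fintype K] [CommRing S] (p : MvPolynomial K S) (q : S) :
    top (p * C q) = top p * q := by
  rw [top_apply, top_apply, mul_comm, coeff_C_mul, mul_comm]

lemma top_C_mul {K S : Type} [Fintype K] [CommRing S] (p : MvPolynomial K S) (q : S) :
    top (C q * p) = q * top p := by
  rw [top_apply, top_apply, coeff_C_mul]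

lemma top_map_C {K D : Type} [Fintype K] (p : MvPolynomial K κ) :
    top (MvPolynomial.map (C : κ →+* MvPolynomial D κ) p) = C (top p) := by
  rw [top_apply, top_apply, coeff_map]

lemma row_eq {K D : Type} [Fintype K] [Fintype D] (m : K ⊕ D → κ) :
    sumAlgEquiv κ K D (∑ c, C (m c) * X c)
      = (∑ k, C (C (m (Sum.inl k))) * X k) + C (∑ d, C (m (Sum.inr d)) * X d) := by
  rw [map_sum, Fintype.sum_sum_type]
  simp only [map_mul, sumAlgEquiv_X_inl, sumAlgEquiv_X_inr, sumAlgEquiv_C_inl]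
  rw [map_sum]
  simp only [map_mul]

/-- the first factor -/
lemma first_factor {R K : Type} [Fintype R] [DecidableEq R] [Fintype K] [DecidableEq K]
    (L : K → R → κ) (c0 : K) :
    top ((∏ r, ∑ c, C (L c r) * X c) * X c0)
      = rperm (fun (c : {c : K // c ≠ c0}) (r : R) => L c.1 r) := by
  classical
  set M' : Option R → K → κ := fun o => o.elim (Pi.single c0 1) (fun r c => L c r) with hM'
  have h1 : (∏ r, ∑ c, C (L c r) * X c) * X c0 = ∏ o : Option R, ∑ c, C (M' o c) * X c := by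
    rw [Fintype.prod_option, mul_comm]
    congr 1
    have h2 : ∀ c, M' none c = if c = c0 then 1 else 0 := by
      intro c
      show (Pi.single c0 1 : K → κ) c = _
      rw [Pi.single_apply]
    rw [Finset.sum_eq_single c0]
    · rw [h2, if_pos rfl, C_1, one_mul]
    · intro c _ hc
      rw [h2, if_neg hc, C_0, zero_mul]
    · intro hh; exact absurd (Finset.mem_univ _) hh
  rw [h1, top1 (Option R) K κ M']
  unfold rperm
  have h3 : ∀ σ : Option R ≃ K, ∏ o, M' o (σ o) = if σ none = c0 then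
      ∏ r, L (σ (some r)) r else 0 := by
    intro σ
    rw [Fintype.prod_option]
    have h2 : M' none (σ none) = if σ none = c0 then 1 else 0 := by
      show (Pi.single c0 1 : K → κ) (σ none) = _
      rw [Pi.single_apply]
    rw [h2]
    split_ifs
    · rw [one_mul]
      rfl
    · rw [zero_mul]
  simp_rw [h3]
  rw [← Finset.sum_filter]
  refine Finset.sum_bij' (fun σ hσ => ((Equiv.optionSubtype c0)
      ⟨σ, (Finset.mem_filter.1 hσ).2⟩).symm)
    (fun e _ => ((Equiv.optionSubtype c0).symm e.symm).1) ?_ ?_ ?_ ?_ ?_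
  · intro σ hσ; exact Finset.mem_univ _
  · intro e _
    rw [Finset.mem_filter]
    exact ⟨Finset.mem_univ _, ((Equiv.optionSubtype c0).symm e.symm).2⟩
  · intro σ hσ
    simp
  · intro e _
    simp
  · intro σ hσ
    have hs := (Finset.mem_filter.1 hσ).2
    set τ := (Equiv.optionSubtype c0) ⟨σ, hs⟩ with hτ
    rw [← Equiv.prod_comp τ (fun c => L c.1 (τ.symm c))]
    refine Finset.prod_congr rfl (fun r _ => ?_)
    rw [Equiv.symm_apply_apply]
    rfl

/-- **Job BLOCK** -/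
theorem block : StmBlock := by
  intro κ _ a r₁ r₂ x₁ x₂ i j
  classical
  set M := Function.update (bigM a r₁ r₂ x₁ x₂) (Sum.inr (Sum.inr i))
      (Pi.single (Sum.inl (Sum.inr j)) 1) with hM
  rw [← top1 (Rw a r₁ r₂) (Cl a r₁ r₂) κ M, top2, map_prod, Fintype.prod_sum_type]
  have h1 : ∀ r : Fin a ⊕ Fin r₁, sumAlgEquiv κ (Fin a ⊕ Fin (r₁ + 1)) (Fin a ⊕ Fin r₂)
      (∑ c, C (M (Sum.inl r) c) * X c) = MvPolynomial.map C (∑ c, C (Lm a r₁ x₁ c r) * X c) := by
    intro r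
    have e1 : M (Sum.inl r) = bigM a r₁ r₂ x₁ x₂ (Sum.inl r) :=
      Function.update_of_ne (by simp) _ _
    rw [row_eq, e1]
    have e2 : ∀ k, bigM a r₁ r₂ x₁ x₂ (Sum.inl r) (Sum.inl k) = Lm a r₁ x₁ k r := fun _ => rfl
    have e3 : ∀ d, bigM a r₁ r₂ x₁ x₂ (Sum.inl r) (Sum.inr d) = 0 := fun _ => rfl
    simp_rw [e2, e3]
    simp
  have h2 : sumAlgEquiv κ (Fin a ⊕ Fin (r₁ + 1)) (Fin a ⊕ Fin r₂)
      (∑ c, C (M (Sum.inr (Sum.inr i)) c) * X c) = MvPolynomial.map C (X (Sum.inr j)) := by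
    have e1 : M (Sum.inr (Sum.inr i)) = Pi.single (Sum.inl (Sum.inr j)) 1 :=
      Function.update_self _ _ _
    rw [row_eq, e1]
    have e2 : ∀ k : Fin a ⊕ Fin (r₁ + 1), (Pi.single (Sum.inl (Sum.inr j)) 1 :
        Cl a r₁ r₂ → κ) (Sum.inl k) = if k = Sum.inr j then 1 else 0 := by
      intro k
      rw [Pi.single_apply]
      simp
    have e3 : ∀ d : Fin a ⊕ Fin r₂, (Pi.single (Sum.inl (Sum.inr j)) 1 :
        Cl a r₁ r₂ → κ) (Sum.inr d) = 0 := by
      intro d
      rw [Pi.single_apply]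
      simp
    simp_rw [e2, e3]
    rw [Finset.sum_eq_single (Sum.inr j)]
    · simp
    · intro k _ hk
      rw [if_neg hk, C_0, C_0, zero_mul]
    · intro hh; exact absurd (Finset.mem_univ _) hh
  have h3 : ∀ r : Fin a ⊕ Fin (r₂ + 1), r ≠ Sum.inr i →
      sumAlgEquiv κ (Fin a ⊕ Fin (r₁ + 1)) (Fin a ⊕ Fin r₂)
      (∑ c, C (M (Sum.inr r) c) * X c) = C (∑ d, C (Lm a r₂ x₂ r d) * X d) := by
    intro r hr
    have e1 : M (Sum.inr r) = bigM a r₁ r₂ x₁ x₂ (Sum.inr r) :=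
      Function.update_of_ne (by simpa using hr) _ _
    rw [row_eq, e1]
    have e2 : ∀ k, bigM a r₁ r₂ x₁ x₂ (Sum.inr r) (Sum.inl k) = 0 := fun _ => rfl
    have e3 : ∀ d, bigM a r₁ r₂ x₁ x₂ (Sum.inr r) (Sum.inr d) = Lm a r₂ x₂ r d := fun _ => rfl
    simp_rw [e2, e3]
    simp
  rw [← Finset.mul_prod_erase (Finset.univ : Finset (Fin a ⊕ Fin (r₂ + 1))) _
    (Finset.mem_univ (Sum.inr i)), h2, Finset.prod_congr rfl (fun r _ => h1 r),
    Finset.prod_congr rfl (fun r hr => h3 r (Finset.ne_of_mem_erase hr)), ← map_prod,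
    ← map_prod, ← mul_assoc, ← map_mul, top_mul_C, top_map_C, top_C_mul, first_factor]
  congr 1
  unfold Pj
  rw [← top1 _ (Fin a ⊕ Fin r₂) κ (fun (c : {c : Fin a ⊕ Fin (r₂ + 1) // c ≠ Sum.inr i})
    (d : Fin a ⊕ Fin r₂) => Lm a r₂ x₂ c.1 d)]
  congr 1
  rw [Finset.prod_subtype (Finset.univ.erase (Sum.inr i : Fin a ⊕ Fin (r₂ + 1)))
      (p := fun c => c ≠ Sum.inr i) (by simp)]

end

end H1FS
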