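import Mathlib

/-!
# Arithmetic formulas and Kalorkoti's rank bound

`Fml σ K` is the type of arithmetic formulas with leaves labelled by variables `v : σ` or
constants of `K` and binary gates `+`, `×`.  `F.poly` is the polynomial computed by `F` and
`F.occ v` the number of leaves labelled `v`.

Rank bound: let `B` be a set of variables and `pts x`, `x : X`, points that agree outside `B`.
The functions `x ↦ (∂_v F)(pts x)`, `v ∉ B`, span a space of dimension at most `2 ℓ` (or `1` if
`ℓ = 0`), where `ℓ` is the number of leaves of `F` labelled by variables of `B`.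
-/

namespace H1FS

open MvPolynomial

/-- arithmetic formulas -/
inductive Fml (σ : Type*) (K : Type*) : Type _
  | var (v : σ) : Fml σ K
  | const (c : K) : Fml σ K
  | add (F G : Fml σ K) : Fml σ K
  | mul (F G : Fml σ K) : Fml σ K

/-- polynomial computed by a formula -/
noncomputable def Fml.poly {σ K : Type*} [CommSemiring K] : Fml σ K → MvPolynomial σ K
  | .var v => X v
  | .const c => C c
  | .add F G => F.poly + G.poly
  | .mul F G => F.poly * G.poly

/-- number of leaves labelled by the variable `v` -/
def Fml.occ {σ K : Type*} [DecidableEq σ] : Fml σ K → σ → ℕ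
  | .var w => fun v => if v = w then 1 else 0
  | .const _ => fun _ => 0
  | .add F G => fun v => F.occ v + G.occ v
  | .mul F G => fun v => F.occ v + G.occ v

/-- number of leaves labelled by variables -/
def Fml.size {σ K : Type*} : Fml σ K → ℕ
  | .var _ => 1
  | .const _ => 0
  | .add F G => F.size + G.size
  | .mul F G => F.size + G.size

lemma Fml.sum_occ {σ K : Type*} [Fintype σ] [DecidableEq σ] (F : Fml σ K) :
    ∑ v, F.occ v = F.size := by
  induction F with
  | var w => simp [Fml.occ, Fml.size]
  | const c => simp [Fml.occ, Fml.size]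
  | add F G hF hG => simp [Fml.occ, Fml.size, Finset.sum_add_distrib, hF, hG]
  | mul F G hF hG => simp [Fml.occ, Fml.size, Finset.sum_add_distrib, hF, hG]

/-- renaming variables -/
def Fml.rename {σ τ K : Type*} (e : σ → τ) : Fml σ K → Fml τ K
  | .var v => .var (e v)
  | .const c => .const c
  | .add F G => .add (F.rename e) (G.rename e)
  | .mul F G => .mul (F.rename e) (G.rename e)

lemma Fml.poly_rename {σ τ K : Type*} [CommSemiring K] (e : σ → τ) (F : Fml σ K) :
    (F.rename e).poly = MvPolynomial.rename e F.poly := by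
  induction F with
  | var v => simp [Fml.rename, Fml.poly]
  | const c => simp [Fml.rename, Fml.poly]
  | add F G hF hG => simp [Fml.rename, Fml.poly, hF, hG]
  | mul F G hF hG => simp [Fml.rename, Fml.poly, hF, hG]

lemma Fml.occ_rename {σ τ K : Type*} [DecidableEq σ] [DecidableEq τ] (e : σ ≃ τ)
    (F : Fml σ K) (v : σ) : (F.rename e).occ (e v) = F.occ v := by
  induction F with
  | var w => simp [Fml.rename, Fml.occ]
  | const c => simp [Fml.rename, Fml.occ]
  | add F G hF hG => simp [Fml.rename, Fml.occ, hF, hG]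
  | mul F G hF hG => simp [Fml.rename, Fml.occ, hF, hG]

section rank

set_option linter.unusedSectionVars false

variable {σ K Q : Type*} [Field K] [Fintype Q]

/-- evaluation at the points -/
noncomputable def ev (pts : Q → σ → K) (f : MvPolynomial σ K) : Q → K :=
  fun x => eval (pts x) f

lemma ev_add (pts : Q → σ → K) (f g : MvPolynomial σ K) :
    ev pts (f + g) = ev pts f + ev pts g := by
  funext x; simp [ev]

lemma ev_mul (pts : Q → σ → K) (f g : MvPolynomial σ K) :
    ev pts (f * g) = ev pts f * ev pts g := by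
  funext x; simp [ev]

/-- the span of `1`, `f` and the derivatives of `f` outside `B`, as functions on the points -/
noncomputable def VV (pts : Q → σ → K) (B : Finset σ) (f : MvPolynomial σ K) :
    Submodule K (Q → K) :=
  Submodule.span K (insert 1 (insert (ev pts f) {g | ∃ v, v ∉ B ∧ g = ev pts (pderiv v f)}))

lemma one_mem_VV (pts : Q → σ → K) (B : Finset σ) (f : MvPolynomial σ K) :
    (1 : Q → K) ∈ VV pts B f := Submodule.subset_span (by simp)

lemma ev_mem_VV (pts : Q → σ → K) (B : Finset σ) (f : MvPolynomial σ K) :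
    ev pts f ∈ VV pts B f := Submodule.subset_span (by simp)

lemma dev_mem_VV (pts : Q → σ → K) (B : Finset σ) (f : MvPolynomial σ K) (v : σ) (hv : v ∉ B) :
    ev pts (pderiv v f) ∈ VV pts B f :=
  Submodule.subset_span (Set.mem_insert_of_mem _ (Set.mem_insert_of_mem _ ⟨v, hv, rfl⟩))

lemma VV_le {pts : Q → σ → K} {B : Finset σ} {f : MvPolynomial σ K} {W : Submodule K (Q → K)}
    (h1 : (1 : Q → K) ∈ W) (h2 : ev pts f ∈ W) (h3 : ∀ v, v ∉ B → ev pts (pderiv v f) ∈ W) :
    VV pts B f ≤ W := by
  refine Submodule.span_le.2 ?_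
  rintro g (rfl | rfl | ⟨v, hv, rfl⟩)
  · exact h1
  · exact h2
  · exact h3 v hv

lemma VV_add (pts : Q → σ → K) (B : Finset σ) (f g : MvPolynomial σ K) :
    VV pts B (f + g) ≤ VV pts B f ⊔ VV pts B g := by
  refine VV_le ?_ ?_ ?_
  · exact Submodule.mem_sup_left (one_mem_VV _ _ _)
  · rw [ev_add]
    exact Submodule.add_mem_sup (ev_mem_VV _ _ _) (ev_mem_VV _ _ _)
  · intro v hv
    rw [map_add, ev_add]
    exact Submodule.add_mem_sup (dev_mem_VV _ _ _ v hv) (dev_mem_VV _ _ _ v hv)

/-- multiplication by a function, as a linear map -/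
noncomputable def mulL (h : Q → K) : (Q → K) →ₗ[K] (Q → K) := LinearMap.mulLeft K h

lemma mulL_apply (h g : Q → K) : mulL h g = h * g := rfl

lemma VV_mul (pts : Q → σ → K) (B : Finset σ) (f g : MvPolynomial σ K) :
    VV pts B (f * g) ≤ Submodule.span K {1} ⊔
      ((VV pts B f).map (mulL (ev pts g)) ⊔ (VV pts B g).map (mulL (ev pts f))) := by
  refine VV_le ?_ ?_ ?_
  · exact Submodule.mem_sup_left (Submodule.mem_span_singleton_self _)
  · refine Submodule.mem_sup_right (Submodule.mem_sup_left ?_)
    refine ⟨ev pts f, ev_mem_VV _ _ _, ?_⟩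
    rw [mulL_apply, ev_mul, mul_comm]
  · intro v hv
    rw [(pderiv v).leibniz, smul_eq_mul, smul_eq_mul, ev_add, ev_mul, ev_mul]
    refine Submodule.mem_sup_right ?_
    rw [add_comm]
    refine Submodule.add_mem_sup ?_ ?_
    · exact ⟨_, dev_mem_VV _ _ _ v hv, rfl⟩
    · exact ⟨_, dev_mem_VV _ _ _ v hv, rfl⟩

lemma VV_add_const {pts : Q → σ → K} {B : Finset σ} {f g : MvPolynomial σ K}
    (hg : VV pts B g ≤ Submodule.span K {1}) : VV pts B (f + g) ≤ VV pts B f := by
  refine (VV_add pts B f g).trans (sup_le le_rfl (hg.trans ?_))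
  rw [Submodule.span_singleton_le_iff_mem]
  exact one_mem_VV _ _ _

lemma VV_mul_const {pts : Q → σ → K} {B : Finset σ} {f g : MvPolynomial σ K}
    (hg : VV pts B g ≤ Submodule.span K {1}) : VV pts B (f * g) ≤ VV pts B f := by
  have h1 : ev pts g ∈ Submodule.span K {(1 : Q → K)} := hg (ev_mem_VV _ _ _)
  obtain ⟨c, hc⟩ := Submodule.mem_span_singleton.1 h1
  refine (VV_mul pts B f g).trans (sup_le ?_ (sup_le ?_ ?_))
  · rw [Submodule.span_singleton_le_iff_mem]
    exact one_mem_VV _ _ _
  · rintro _ ⟨w, hw, rfl⟩
    rw [mulL_apply, ← hc, smul_one_mul]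
    exact Submodule.smul_mem _ _ hw
  · refine (Submodule.map_mono hg).trans ?_
    rw [Submodule.map_span, Submodule.span_le, Set.image_singleton, Set.singleton_subset_iff]
    rw [mulL_apply, mul_one]
    exact ev_mem_VV _ _ _

lemma finrank_sup_of_common {V W : Submodule K (Q → K)} {w : Q → K} (hw : w ≠ 0)
    (h1 : w ∈ V) (h2 : w ∈ W) :
    Module.finrank K (V ⊔ W : Submodule K (Q → K)) + 1 ≤
      Module.finrank K V + Module.finrank K W := by
  rw [← Submodule.finrank_sup_add_finrank_inf_eq]
  have : 1 ≤ Module.finrank K (V ⊓ W : Submodule K (Q → K)) := by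
    have h3 : Submodule.span K {w} ≤ V ⊓ W := by
      rw [Submodule.span_singleton_le_iff_mem]
      exact ⟨h1, h2⟩
    have h4 := Submodule.finrank_mono h3
    rwa [finrank_span_singleton hw] at h4
  omega

lemma finrank_sup_le (V W : Submodule K (Q → K)) :
    Module.finrank K (V ⊔ W : Submodule K (Q → K)) ≤
      Module.finrank K V + Module.finrank K W := by
  have := Submodule.finrank_sup_add_finrank_inf_eq V W
  omega

lemma finrank_map_add_one_le {V : Submodule K (Q → K)} (T : (Q → K) →ₗ[K] (Q → K))
    {w : Q → K} (hw : w ≠ 0) (hwV : w ∈ V) (hT : T w = 0) :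
    Module.finrank K (V.map T) + 1 ≤ Module.finrank K V := by
  have h1 := LinearMap.finrank_range_add_finrank_ker (T.domRestrict V)
  have h2 : LinearMap.range (T.domRestrict V) = V.map T := LinearMap.range_domRestrict V T
  have h3 : 1 ≤ Module.finrank K (LinearMap.ker (T.domRestrict V)) := by
    have h4 : (⟨w, hwV⟩ : V) ∈ LinearMap.ker (T.domRestrict V) := by
      rw [LinearMap.mem_ker]
      exact hT
    have h5 : Submodule.span K {(⟨w, hwV⟩ : V)} ≤ LinearMap.ker (T.domRestrict V) := by
      rwa [Submodule.span_singleton_le_iff_mem]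
    have h6 := Submodule.finrank_mono h5
    rwa [finrank_span_singleton (by
      intro h
      exact hw (congrArg Subtype.val h))] at h6
  rw [h2] at h1
  omega

lemma finrank_VV_mul (pts : Q → σ → K) (B : Finset σ) (f g : MvPolynomial σ K)
    (_hf : 1 ≤ Module.finrank K (VV pts B f)) (hg : 1 ≤ Module.finrank K (VV pts B g)) :
    Module.finrank K (VV pts B (f * g)) ≤
      Module.finrank K (VV pts B f) + Module.finrank K (VV pts B g) := by
  have h1 := Submodule.finrank_mono (VV_mul pts B f g)
  have h2 : Module.finrank K (Submodule.span K {(1 : Q → K)}) ≤ 1 := by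
    refine (finrank_span_le_card _).trans ?_
    simp
  have h3 := finrank_sup_le (Submodule.span K {(1 : Q → K)})
    ((VV pts B f).map (mulL (ev pts g)) ⊔ (VV pts B g).map (mulL (ev pts f)))
  have h4 : Module.finrank K ((VV pts B f).map (mulL (ev pts g))) ≤
      Module.finrank K (VV pts B f) := Submodule.finrank_map_le _ _
  have h5 : Module.finrank K ((VV pts B g).map (mulL (ev pts f))) ≤
      Module.finrank K (VV pts B g) := Submodule.finrank_map_le _ _
  by_cases h : ev pts f * ev pts g = 0
  · have h7 := finrank_sup_le ((VV pts B f).map (mulL (ev pts g)))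
      ((VV pts B g).map (mulL (ev pts f)))
    by_cases hf0 : ev pts f = 0
    · have h8 : (VV pts B g).map (mulL (ev pts f)) = ⊥ := by
        rw [eq_bot_iff]
        rintro _ ⟨w, _, rfl⟩
        rw [mulL_apply, hf0, zero_mul]
        exact Submodule.zero_mem _
      rw [h8, finrank_bot] at h7
      rw [h8] at h1 h3
      omega
    · have h8 := finrank_map_add_one_le (mulL (ev pts g)) hf0 (ev_mem_VV pts B f)
        (by rw [mulL_apply, mul_comm]; exact h)
      omega
  · have h6 := finrank_sup_of_common (V := (VV pts B f).map (mulL (ev pts g)))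
      (W := (VV pts B g).map (mulL (ev pts f))) h
      ⟨ev pts f, ev_mem_VV _ _ _, by rw [mulL_apply, mul_comm]⟩
      ⟨ev pts g, ev_mem_VV _ _ _, by rw [mulL_apply]⟩
    omega

lemma one_le_finrank_VV [Nonempty Q] (pts : Q → σ → K) (B : Finset σ) (f : MvPolynomial σ K) :
    1 ≤ Module.finrank K (VV pts B f) := by
  have h1 : Submodule.span K {(1 : Q → K)} ≤ VV pts B f := by
    rw [Submodule.span_singleton_le_iff_mem]
    exact one_mem_VV _ _ _
  have h2 := Submodule.finrank_mono h1
  rwa [finrank_span_singleton one_ne_zero] at h2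

/-- the main rank bound for formulas -/
theorem rank_bound [Nonempty Q] [DecidableEq σ] (pts : Q → σ → K) (B : Finset σ)
    (hB : ∀ v, v ∉ B → ∀ x x', pts x v = pts x' v) (F : Fml σ K) :
    (∑ v ∈ B, F.occ v = 0 → VV pts B F.poly ≤ Submodule.span K {1}) ∧
    (1 ≤ ∑ v ∈ B, F.occ v →
      Module.finrank K (VV pts B F.poly) ≤ 2 * ∑ v ∈ B, F.occ v) := by
  have hconst : ∀ c : K, VV pts B (C c : MvPolynomial σ K) ≤ Submodule.span K {1} := by
    intro c
    refine VV_le (Submodule.mem_span_singleton_self _) ?_ ?_
    · exact Submodule.mem_span_singleton.2 ⟨c, by funext x; simp [ev]⟩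
    · intro v _
      have : ev pts (pderiv v (C c : MvPolynomial σ K)) = 0 := by
        funext x; simp [ev]
      rw [this]
      exact Submodule.zero_mem _
  have hcomb : ∀ (f g : MvPolynomial σ K) (ℓ₁ ℓ₂ : ℕ) (h : MvPolynomial σ K),
      (VV pts B g ≤ Submodule.span K {1} → VV pts B h ≤ VV pts B f) →
      (VV pts B f ≤ Submodule.span K {1} → VV pts B h ≤ VV pts B g) →
      Module.finrank K (VV pts B h) ≤
        Module.finrank K (VV pts B f) + Module.finrank K (VV pts B g) →
      ((ℓ₁ = 0 → VV pts B f ≤ Submodule.span K {1}) ∧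
        (1 ≤ ℓ₁ → Module.finrank K (VV pts B f) ≤ 2 * ℓ₁)) →
      ((ℓ₂ = 0 → VV pts B g ≤ Submodule.span K {1}) ∧
        (1 ≤ ℓ₂ → Module.finrank K (VV pts B g) ≤ 2 * ℓ₂)) →
      ((ℓ₁ + ℓ₂ = 0 → VV pts B h ≤ Submodule.span K {1}) ∧
        (1 ≤ ℓ₁ + ℓ₂ → Module.finrank K (VV pts B h) ≤ 2 * (ℓ₁ + ℓ₂))) := by
    intro f g ℓ₁ ℓ₂ h hg hf hfg h1 h2
    refine ⟨fun h0 => ?_, fun h0 => ?_⟩
    · have e1 : ℓ₁ = 0 := by omega
      have e2 : ℓ₂ = 0 := by omega
      exact (hg (h2.1 e2)).trans (h1.1 e1)
    · by_cases e1 : ℓ₁ = 0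
      · have e2 : 1 ≤ ℓ₂ := by omega
        have e3 := Submodule.finrank_mono (hf (h1.1 e1))
        have e4 := h2.2 e2
        omega
      · by_cases e2 : ℓ₂ = 0
        · have e3 := Submodule.finrank_mono (hg (h2.1 e2))
          have e4 := h1.2 (by omega)
          omega
        · have e3 := h1.2 (by omega)
          have e4 := h2.2 (by omega)
          omega
  induction F with
  | var w =>
    simp only [Fml.occ, Fml.poly]
    by_cases hw : w ∈ B
    · have h1 : ∑ v ∈ B, (if v = w then 1 else 0) = 1 := by simp [hw]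
      rw [h1]
      refine ⟨fun h => absurd h one_ne_zero, fun _ => ?_⟩
      have h2 : VV pts B (X w : MvPolynomial σ K) ≤
          Submodule.span K {(1 : Q → K), ev pts (X w)} := by
        refine VV_le (Submodule.subset_span (by simp)) (Submodule.subset_span (by simp)) ?_
        intro v hv
        have : ev pts (pderiv v (X w : MvPolynomial σ K)) = 0 := by
          funext x
          have hne : w ≠ v := fun h => hv (h ▸ hw)
          simp [ev, pderiv_X_of_ne hne]
        rw [this]
        exact Submodule.zero_mem _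
      refine (Submodule.finrank_mono h2).trans ?_
      classical
      have h3 : ({(1 : Q → K), ev pts (X w)} : Set (Q → K)) =
          (({(1 : Q → K), ev pts (X w)} : Finset (Q → K)) : Set (Q → K)) := by simp
      rw [h3]
      refine (finrank_span_finset_le_card _).trans ?_
      exact Finset.card_le_two
    · have h1 : ∑ v ∈ B, (if v = w then 1 else 0) = 0 := by simp [hw]
      rw [h1]
      refine ⟨fun _ => ?_, fun h => absurd h (by norm_num)⟩
      obtain ⟨x0⟩ := ‹Nonempty Q›
      refine VV_le (Submodule.mem_span_singleton_self _) ?_ ?_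
      · refine Submodule.mem_span_singleton.2 ⟨pts x0 w, ?_⟩
        funext x
        simp [ev, hB w hw x x0]
      · intro v _
        by_cases hvw : w = v
        · subst hvw
          have : ev pts (pderiv w (X w : MvPolynomial σ K)) = 1 := by
            funext x
            simp [ev]
          rw [this]
          exact Submodule.mem_span_singleton_self _
        · have : ev pts (pderiv v (X w : MvPolynomial σ K)) = 0 := by
            funext x
            simp [ev, pderiv_X_of_ne hvw]
          rw [this]
          exact Submodule.zero_mem _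
  | const c =>
    simp only [Fml.occ, Fml.poly, Finset.sum_const_zero]
    exact ⟨fun _ => hconst c, fun h => absurd h (by norm_num)⟩
  | add F G hF hG =>
    simp only [Fml.occ, Fml.poly, Finset.sum_add_distrib]
    refine hcomb F.poly G.poly _ _ _ VV_add_const (fun h => ?_) ?_ hF hG
    · rw [add_comm]; exact VV_add_const h
    · exact (Submodule.finrank_mono (VV_add pts B _ _)).trans (finrank_sup_le _ _)
  | mul F G hF hG =>
    simp only [Fml.occ, Fml.poly, Finset.sum_add_distrib]
    refine hcomb F.poly G.poly _ _ _ VV_mul_const (fun h => ?_) ?_ hF hG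
    · rw [mul_comm]; exact VV_mul_const h
    · exact finrank_VV_mul pts B _ _ (one_le_finrank_VV pts B _) (one_le_finrank_VV pts B _)

/-- linearly independent derivatives bound the number of leaves in `B` from below -/
theorem card_le_occ [Nonempty Q] [DecidableEq σ] (pts : Q → σ → K) (B : Finset σ)
    (hB : ∀ v, v ∉ B → ∀ x x', pts x v = pts x' v) (F : Fml σ K)
    {W : Type*} [Fintype W] (w : W → σ) (hw : ∀ i, w i ∉ B)
    (hli : LinearIndependent K (fun i => ev pts (pderiv (w i) F.poly)))
    (hW : 2 ≤ Fintype.card W) :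
    Fintype.card W ≤ 2 * ∑ v ∈ B, F.occ v := by
  have h1 : Fintype.card W ≤ Module.finrank K (VV pts B F.poly) := by
    have h2 : LinearIndependent K (fun i => (⟨ev pts (pderiv (w i) F.poly),
        dev_mem_VV pts B F.poly (w i) (hw i)⟩ : VV pts B F.poly)) := by
      apply LinearIndependent.of_comp (VV pts B F.poly).subtype
      exact hli
    exact h2.fintype_card_le_finrank
  obtain ⟨h3, h4⟩ := rank_bound pts B hB F
  by_cases h0 : ∑ v ∈ B, F.occ v = 0
  · have h5 := Submodule.finrank_mono (h3 h0)
    have h6 : Module.finrank K (Submodule.span K {(1 : Q → K)}) ≤ 1 := by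
      refine (finrank_span_le_card _).trans ?_
      simp
    omega
  · exact h1.trans (h4 (by omega))

end rank

end H1FS
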