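import Pool.Agent.Helper1x.FS.Stm
import Pool.Agent.Helper1x.FS.Formula

/-!
# The rank of one block
-/

namespace H1FS

open MvPolynomial H1CL

universe u

/-- permanent polynomial with arbitrary index types -/
noncomputable def permRC (r c : Type) [Fintype r] [DecidableEq r] [Fintype c] [DecidableEq c]
    (R : Type u) [CommRing R] : MvPolynomial (r × c) R :=
  ∑ σ : r ≃ c, ∏ i, X (i, σ i)

section deriv

variable {r c : Type} [Fintype r] [DecidableEq r] [Fintype c] [DecidableEq c]
  {R : Type u} [CommRing R]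

lemma pderiv_prod_eq_zero (σ : r ≃ c) (i : r) (j : c) (s : Finset r) (hi : i ∉ s) :
    pderiv (i, j) (∏ k ∈ s, X (k, σ k) : MvPolynomial (r × c) R) = 0 := by
  induction s using Finset.induction_on with
  | empty => simp
  | insert a s ha ih =>
    rw [Finset.prod_insert ha, (pderiv (i, j)).leibniz, ih (fun h => hi (Finset.mem_insert_of_mem h))]
    have hne : (a, σ a) ≠ (i, j) := by
      intro h
      apply hi
      have h1 : a = i := (Prod.ext_iff.1 h).1
      rw [← h1]
      exact Finset.mem_insert_self _ _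
    rw [pderiv_X_of_ne hne]
    simp

lemma eval_pderiv_permRC (y : r × c → R) (i : r) (j : c) :
    eval y (pderiv (i, j) (permRC r c R)) =
      rperm (Function.update (fun a b => y (a, b)) i (Pi.single j 1)) := by
  unfold permRC rperm
  rw [map_sum, map_sum]
  refine Finset.sum_congr rfl (fun σ _ => ?_)
  rw [← Finset.mul_prod_erase Finset.univ (fun k => (X (k, σ k) : MvPolynomial (r × c) R))
    (Finset.mem_univ i), (pderiv (i, j)).leibniz,
    pderiv_prod_eq_zero σ i j _ (Finset.notMem_erase i _), smul_zero, zero_add, smul_eq_mul,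
    map_mul, map_prod]
  rw [← Finset.mul_prod_erase Finset.univ (fun k => Function.update (fun a b => y (a, b)) i
    (Pi.single j 1) k (σ k)) (Finset.mem_univ i)]
  rw [Function.update_self, mul_comm]
  congr 1
  · by_cases h : σ i = j
    · rw [h, pderiv_X_self]
      simp
    · rw [pderiv_X_of_ne (fun hh => h (Prod.ext_iff.1 hh).2)]
      simp [h]
  · refine Finset.prod_congr rfl (fun k hk => ?_)
    rw [Function.update_of_ne (Finset.ne_of_mem_erase hk)]
    simp

end deriv

/-! ### Transfer of linear independence -/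

section transfer

set_option linter.unusedSectionVars false

variable {V Q : Type*} [Fintype V] [DecidableEq V] [Fintype Q] [DecidableEq Q]

lemma exists_left_inv {κ : Type*} [Field κ] (A : Matrix V Q κ)
    (hA : LinearIndependent κ (fun v => A v)) :
    ∃ g : Matrix V Q κ, g * A.transpose = 1 := by
  have hinj : Function.Injective (Matrix.toLin' A.transpose) := by
    rw [← LinearMap.ker_eq_bot, LinearMap.ker_eq_bot']
    intro a ha
    rw [Fintype.linearIndependent_iff] at hA
    funext v
    refine hA a ?_ v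
    funext x
    have := congrFun ha x
    simp only [Matrix.toLin'_apply, Matrix.mulVec, dotProduct, Matrix.transpose_apply,
      Pi.zero_apply] at this
    simp only [Finset.sum_apply, Pi.smul_apply, smul_eq_mul, Pi.zero_apply]
    rw [← this]
    exact Finset.sum_congr rfl (fun i _ => mul_comm _ _)
  obtain ⟨G, hG⟩ := (Matrix.toLin' A.transpose).exists_leftInverse_of_injective
    (LinearMap.ker_eq_bot.2 hinj)
  refine ⟨LinearMap.toMatrix' G, ?_⟩
  have h1 := congrArg LinearMap.toMatrix' hG
  rw [LinearMap.toMatrix'_comp, LinearMap.toMatrix'_toLin', LinearMap.toMatrix'_id] at h1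
  exact h1

lemma li_of_det {K : Type*} [Field K] (A g : Matrix V Q K) (h : (g * A.transpose).det ≠ 0) :
    LinearIndependent K (fun v => A v) := by
  rw [Fintype.linearIndependent_iff]
  intro a ha
  have h1 : A.transpose.mulVec a = 0 := by
    funext x
    have := congrFun ha x
    simp only [Finset.sum_apply, Pi.smul_apply, smul_eq_mul, Pi.zero_apply] at this
    simp only [Matrix.mulVec, dotProduct, Matrix.transpose_apply, Pi.zero_apply]
    rw [← this]
    exact Finset.sum_congr rfl (fun i _ => mul_comm _ _)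
  have h2 : (g * A.transpose).mulVec a = 0 := by
    rw [← Matrix.mulVec_mulVec, h1, Matrix.mulVec_zero]
  have h3 := Matrix.eq_zero_of_mulVec_eq_zero h h2
  intro v
  rw [h3]; rfl

theorem transfer {R κ K : Type*} [CommRing R] [Field κ] [Field K] (φ : R →+* κ)
    (hφ : Function.Surjective φ) (ι : R →+* K) (hι : Function.Injective ι)
    (A : V → Q → R) (hA : LinearIndependent κ (fun v x => φ (A v x))) :
    LinearIndependent K (fun v x => ι (A v x)) := by
  obtain ⟨g, hg⟩ := exists_left_inv (Matrix.of fun v x => φ (A v x)) hA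
  choose s hs using hφ
  let gR : Matrix V Q R := g.map s
  have h1 : (gR * (Matrix.of A).transpose).det ≠ 0 := by
    intro h
    have h2 := congrArg φ h
    rw [map_zero, RingHom.map_det, RingHom.mapMatrix_apply, Matrix.map_mul] at h2
    have h3 : gR.map φ = g := by
      ext v x
      simp [gR, hs]
    have h4 : ((Matrix.of A).transpose).map φ = (Matrix.of fun v x => φ (A v x)).transpose := rfl
    rw [h3, h4, hg, Matrix.det_one] at h2
    exact one_ne_zero h2
  refine li_of_det (Matrix.of fun v x => ι (A v x)) (gR.map ι) ?_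
  have h5 : (gR.map ι * (Matrix.of fun v x => ι (A v x)).transpose).det
      = ι ((gR * (Matrix.of A).transpose).det) := by
    rw [RingHom.map_det, RingHom.mapMatrix_apply, Matrix.map_mul]
    rfl
  rw [h5]
  intro h
  exact h1 (hι (by rw [h, map_zero]))

/-- products of linearly independent families -/
lemma li_prod {κ A A' I J : Type*} [Field κ] [Fintype I] [Fintype J] (f : J → A → κ)
    (g : I → A' → κ) (hf : LinearIndependent κ f) (hg : LinearIndependent κ g) :
    LinearIndependent κ (fun (v : I × J) (x : A × A') => f v.2 x.1 * g v.1 x.2) := by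
  rw [Fintype.linearIndependent_iff] at *
  intro a ha v
  have h1 : ∀ y : A', ∀ j, ∑ i, a (i, j) * g i y = 0 := by
    intro y
    refine hf (fun j => ∑ i, a (i, j) * g i y) ?_
    funext x
    have := congrFun ha (x, y)
    simp only [Finset.sum_apply, Pi.smul_apply, smul_eq_mul, Pi.zero_apply] at this ⊢
    rw [Fintype.sum_prod_type, Finset.sum_comm] at this
    rw [← this]
    refine Finset.sum_congr rfl (fun j _ => ?_)
    rw [Finset.sum_mul]
    exact Finset.sum_congr rfl (fun i _ => by ring)
  refine hg (fun i => a (i, v.2)) ?_ v.1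
  funext y
  simpa [Finset.sum_apply] using h1 y v.2

end transfer

/-! ### One block -/

section block

variable {R K : Type*} {κ : Type} [CommRing R] [Field κ] [CharZero κ] [Field K]

lemma eval_map_comp {σ : Type*} (ι : R →+* K) (y : σ → R) (p : MvPolynomial σ R) :
    eval (fun v => ι (y v)) (MvPolynomial.map ι p) = ι (eval y p) := by
  rw [eval_map]
  have := eval₂_comp_left ι (RingHom.id R) y p
  rw [RingHom.comp_id] at this
  exact this.symm

lemma eval_map_comp' {σ : Type*} (φ : R →+* κ) (y : σ → R) (p : MvPolynomial σ R) :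
    eval (fun v => φ (y v)) (MvPolynomial.map φ p) = φ (eval y p) := by
  rw [eval_map]
  have := eval₂_comp_left φ (RingHom.id R) y p
  rw [RingHom.comp_id] at this
  exact this.symm

/-- positions of the special variables -/
def spec (a r₁ r₂ : ℕ) : Fin a ⊕ Fin a → Rw a r₁ r₂ × Cl a r₁ r₂
  | Sum.inl t => (Sum.inl (Sum.inl t), Sum.inl (Sum.inl t))
  | Sum.inr t => (Sum.inr (Sum.inl t), Sum.inr (Sum.inl t))

lemma spec_injective (a r₁ r₂ : ℕ) : Function.Injective (spec a r₁ r₂) := by
  rintro (t | t) (t' | t') h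
  · have := (Prod.ext_iff.1 h).1
    simp only [spec, Sum.inl.injEq] at this
    rw [this]
  · have := (Prod.ext_iff.1 h).1
    simp [spec] at this
  · have := (Prod.ext_iff.1 h).1
    simp [spec] at this
  · have := (Prod.ext_iff.1 h).1
    simp only [spec, Sum.inr.injEq, Sum.inl.injEq] at this
    rw [this]

/-- the block of special positions -/
def blk (a r₁ r₂ : ℕ) : Finset (Rw a r₁ r₂ × Cl a r₁ r₂) :=
  Finset.univ.map ⟨spec a r₁ r₂, spec_injective a r₁ r₂⟩

/-- the points -/
def ptsR (a r₁ r₂ : ℕ) (R : Type*) [CommRing R] (U : Finset (Fin a) × Finset (Fin a))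
    (v : Rw a r₁ r₂ × Cl a r₁ r₂) : R :=
  bigM a r₁ r₂ (ind a R U.1) (ind a R U.2) v.1 v.2

lemma ptsR_outside (a r₁ r₂ : ℕ) (v : Rw a r₁ r₂ × Cl a r₁ r₂) (hv : v ∉ blk a r₁ r₂)
    (U U' : Finset (Fin a) × Finset (Fin a)) : ptsR a r₁ r₂ R U v = ptsR a r₁ r₂ R U' v := by
  have h : ∀ t, v ≠ spec a r₁ r₂ t := by
    intro t ht
    apply hv
    rw [blk, Finset.mem_map]
    exact ⟨t, Finset.mem_univ _, ht.symm⟩
  obtain ⟨x, y⟩ := v
  rcases x with (t | o) | (t | o) <;> rcases y with (t' | o') | (t' | o') <;>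
    simp only [ptsR, bigM, Lm]
  · have hne : t' ≠ t := by
      rintro rfl
      exact h (Sum.inl t') rfl
    simp [hne]
  · have hne : t ≠ t' := by
      rintro rfl
      exact h (Sum.inr t) rfl
    simp [hne]

lemma map_ptsR (a r₁ r₂ : ℕ) {S : Type*} [CommRing S] (φ : R →+* S)
    (U : Finset (Fin a) × Finset (Fin a)) (v : Rw a r₁ r₂ × Cl a r₁ r₂) :
    φ (ptsR a r₁ r₂ R U v) = ptsR a r₁ r₂ S U v := by
  obtain ⟨x, y⟩ := v
  rcases x with (t | o) | (t | o) <;> rcases y with (t' | o') | (t' | o') <;>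
    simp only [ptsR, bigM, Lm, ind, map_zero, map_one] <;>
    split_ifs <;> simp

theorem block_bound (hind : StmInd) (hblk : StmBlock) (φ : R →+* κ)
    (hφ : Function.Surjective φ) (ι : R →+* K) (hι : Function.Injective ι)
    (a r₁ r₂ : ℕ) (h₁ : r₁ + 1 ≤ 2 ^ a) (h₂ : r₂ + 1 ≤ 2 ^ a)
    (hW : 2 ≤ (r₂ + 1) * (r₁ + 1))
    (f : MvPolynomial (Rw a r₁ r₂ × Cl a r₁ r₂) R)
    (hf : MvPolynomial.map φ f = permRC (Rw a r₁ r₂) (Cl a r₁ r₂) κ)
    (F : Fml (Rw a r₁ r₂ × Cl a r₁ r₂) K) (hF : F.poly = MvPolynomial.map ι f) :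
    (r₂ + 1) * (r₁ + 1) ≤ 2 * ∑ v ∈ blk a r₁ r₂, F.occ v := by
  let pts : (Finset (Fin a) × Finset (Fin a)) → (Rw a r₁ r₂ × Cl a r₁ r₂) → K :=
    fun U v => ι (ptsR a r₁ r₂ R U v)
  let w : Fin (r₂ + 1) × Fin (r₁ + 1) → (Rw a r₁ r₂ × Cl a r₁ r₂) :=
    fun ij => (Sum.inr (Sum.inr ij.1), Sum.inl (Sum.inr ij.2))
  have hw : ∀ i, w i ∉ blk a r₁ r₂ := by
    intro i hi
    rw [blk, Finset.mem_map] at hi
    obtain ⟨t, _, ht⟩ := hi
    rcases t with t | t <;>
    · have := (Prod.ext_iff.1 ht).1
      simp [spec, w] at this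
  let A : (Fin (r₂ + 1) × Fin (r₁ + 1)) → (Finset (Fin a) × Finset (Fin a)) → R :=
    fun ij U => eval (ptsR a r₁ r₂ R U) (pderiv (w ij) f)
  have hAκ : LinearIndependent κ (fun v x => φ (A v x)) := by
    have h1 : (fun v x => φ (A v x)) = fun (v : Fin (r₂ + 1) × Fin (r₁ + 1))
        (x : Finset (Fin a) × Finset (Fin a)) =>
          Pj a r₁ (ind a κ x.1) v.2 * Pj a r₂ (ind a κ x.2) v.1 := by
      funext v x
      show φ (eval (ptsR a r₁ r₂ R x) (pderiv (w v) f)) = _
      rw [← eval_map_comp', ← pderiv_map, hf]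
      have h2 : (fun v => φ (ptsR a r₁ r₂ R x v)) = ptsR a r₁ r₂ κ x := by
        funext v; exact map_ptsR a r₁ r₂ φ x v
      rw [h2, eval_pderiv_permRC, ← hblk κ a r₁ r₂ (ind a κ x.1) (ind a κ x.2) v.1 v.2]
      rfl
    rw [h1]
    exact li_prod (fun j U => Pj a r₁ (ind a κ U) j) (fun i U => Pj a r₂ (ind a κ U) i)
      (hind κ a r₁ h₁) (hind κ a r₂ h₂)
  have hAK := transfer φ hφ ι hι A hAκ
  have hli : LinearIndependent K (fun i => ev pts (pderiv (w i) F.poly)) := by
    have h1 : (fun i => ev pts (pderiv (w i) F.poly)) = fun v x => ι (A v x) := by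
      funext v x
      show eval (fun v => ι (ptsR a r₁ r₂ R x v)) (pderiv (w v) F.poly) = _
      rw [hF, pderiv_map, eval_map_comp]
    rw [h1]
    exact hAK
  have := card_le_occ pts (blk a r₁ r₂)
    (fun v hv x x' => by
      show ι _ = ι _
      rw [ptsR_outside a r₁ r₂ v hv x x']) F w hw hli (by simpa using hW)
  simpa using this

end block

end H1FS
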