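import Pool.Agent.Helper1x.FS.Stm

/-!
# Counting: disjoint blocks on broken diagonals
-/

namespace H1FS

/-- row of a special position -/
def specRow (a r₁ r₂ : ℕ) : Fin a ⊕ Fin a → Rw a r₁ r₂
  | Sum.inl t => Sum.inl (Sum.inl t)
  | Sum.inr t => Sum.inr (Sum.inl t)

/-- column of a special position -/
def specCol (a r₁ r₂ : ℕ) : Fin a ⊕ Fin a → Cl a r₁ r₂
  | Sum.inl t => Sum.inl (Sum.inl t)
  | Sum.inr t => Sum.inr (Sum.inl t)

lemma specRow_injective (a r₁ r₂ : ℕ) : Function.Injective (specRow a r₁ r₂) := by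
  rintro (t | t) (t' | t') h <;> simp_all [specRow]

lemma specCol_injective (a r₁ r₂ : ℕ) : Function.Injective (specCol a r₁ r₂) := by
  rintro (t | t) (t' | t') h <;> simp_all [specCol]

lemma exists_equiv_extending {T A B : Type*} [Finite T] [Fintype A] [Fintype B]
    (h : Fintype.card A = Fintype.card B) (f : T → A) (g : T → B) (hf : Function.Injective f)
    (hg : Function.Injective g) : ∃ e : A ≃ B, ∀ t, e (f t) = g t := by
  classical
  let e₀ : A ≃ B := Fintype.equivOfCardEq h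
  obtain ⟨π, hπ⟩ := Equiv.Perm.exists_extending_pair (fun t => e₀ (f t)) g
    (e₀.injective.comp hf) hg
  refine ⟨e₀.trans π, fun t => ?_⟩
  exact hπ t

/-- index of a row in a segment -/
def rowOf (a s : ℕ) : Fin a ⊕ Fin a → ℕ
  | Sum.inl t => 2 * a * s + t
  | Sum.inr t => 2 * a * s + a + t

lemma rowOf_lt (a s S n : ℕ) (hs : s < S) (hS : 2 * a * S ≤ n) (t : Fin a ⊕ Fin a) :
    rowOf a s t < n := by
  have h1 : 2 * a * s + 2 * a ≤ 2 * a * S := by
    calc 2 * a * s + 2 * a = 2 * a * (s + 1) := by ring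
      _ ≤ 2 * a * S := Nat.mul_le_mul_left _ hs
  rcases t with t | t <;> have := t.2 <;> simp only [rowOf] <;> omega

lemma rowOf_inj (a s s' : ℕ) (t t' : Fin a ⊕ Fin a) (h : rowOf a s t = rowOf a s' t') :
    s = s' ∧ t = t' := by
  have key : ∀ (s s' x x' : ℕ), x < 2 * a → x' < 2 * a → 2 * a * s + x = 2 * a * s' + x' →
      s = s' ∧ x = x' := by
    intro s s' x x' hx hx' h
    have ha : 0 < 2 * a := by omega
    have h1 : (2 * a * s + x) / (2 * a) = s := by
      rw [Nat.mul_add_div ha, Nat.div_eq_of_lt hx, add_zero]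
    have h2 : (2 * a * s' + x') / (2 * a) = s' := by
      rw [Nat.mul_add_div ha, Nat.div_eq_of_lt hx', add_zero]
    have h3 : s = s' := by rw [← h1, ← h2, h]
    subst h3
    exact ⟨rfl, by omega⟩
  rcases t with t | t <;> rcases t' with t' | t' <;> simp only [rowOf] at h <;>
    have ht := t.2 <;> have ht' := t'.2
  · obtain ⟨h1, h2⟩ := key s s' t t' (by omega) (by omega) h
    exact ⟨h1, by rw [Fin.ext h2]⟩
  · obtain ⟨h1, h2⟩ := key s s' t (a + t') (by omega) (by omega) (by omega)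
    omega
  · obtain ⟨h1, h2⟩ := key s s' (a + t) t' (by omega) (by omega) (by omega)
    omega
  · obtain ⟨h1, h2⟩ := key s s' (a + t) (a + t') (by omega) (by omega) (by omega)
    refine ⟨h1, ?_⟩
    have : t = t' := Fin.ext (by omega)
    rw [this]

/-- if every block of every rearrangement has weight at least `b / C`, the total weight is at
least `n S b / C` -/
theorem count (a r₁ r₂ n S b C : ℕ) (hn : n = 2 * a + r₁ + r₂ + 1) (hS : 2 * a * S ≤ n)
    (g : Fin n × Fin n → ℕ)
    (h : ∀ (ρ : Fin n ≃ Rw a r₁ r₂) (γ : Fin n ≃ Cl a r₁ r₂),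
      b ≤ C * ∑ t : Fin a ⊕ Fin a, g (ρ.symm (specRow a r₁ r₂ t), γ.symm (specCol a r₁ r₂ t))) :
    n * S * b ≤ C * ∑ v, g v := by
  classical
  have hne : NeZero n := ⟨by omega⟩
  let f : Fin S → Fin a ⊕ Fin a → Fin n := fun s t => ⟨rowOf a s t, rowOf_lt a s S n s.2 hS t⟩
  have hf : ∀ s s' t t', f s t = f s' t' → s = s' ∧ t = t' := by
    intro s s' t t' h1
    obtain ⟨h2, h3⟩ := rowOf_inj a s s' t t' (by simpa [f] using h1)
    exact ⟨Fin.ext h2, h3⟩
  let pos : Fin n × Fin S × (Fin a ⊕ Fin a) → Fin n × Fin n :=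
    fun x => (f x.2.1 x.2.2, f x.2.1 x.2.2 + x.1)
  have hpos : Function.Injective pos := by
    rintro ⟨c, s, t⟩ ⟨c', s', t'⟩ h1
    obtain ⟨h2, h3⟩ := Prod.ext_iff.1 h1
    simp only [pos] at h2 h3
    obtain ⟨h4, h5⟩ := hf _ _ _ _ h2
    subst h4 h5
    have h6 : c = c' := add_left_cancel h3
    rw [h6]
  have hblock : ∀ (c : Fin n) (s : Fin S), b ≤ C * ∑ t, g (pos (c, s, t)) := by
    intro c s
    obtain ⟨ρ, hρ⟩ := exists_equiv_extending (A := Fin n) (B := Rw a r₁ r₂)
      (by simp only [Fintype.card_fin, Fintype.card_sum]; omega)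
      (f s) (specRow a r₁ r₂) (fun t t' h => (hf _ _ _ _ h).2) (specRow_injective a r₁ r₂)
    obtain ⟨γ, hγ⟩ := exists_equiv_extending (A := Fin n) (B := Cl a r₁ r₂)
      (by simp only [Fintype.card_fin, Fintype.card_sum]; omega)
      (fun t => f s t + c) (specCol a r₁ r₂)
      (fun t t' h => (hf _ _ _ _ (add_right_cancel h)).2) (specCol_injective a r₁ r₂)
    have h1 := h ρ γ
    have h2 : ∀ t, (ρ.symm (specRow a r₁ r₂ t), γ.symm (specCol a r₁ r₂ t)) = pos (c, s, t) := by
      intro t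
      rw [← hρ t, ← hγ t, Equiv.symm_apply_apply, Equiv.symm_apply_apply]
    simpa only [h2] using h1
  calc n * S * b = ∑ _c : Fin n, ∑ _s : Fin S, b := by
        simp only [Finset.sum_const, Finset.card_univ, Fintype.card_fin, smul_eq_mul]
        ring
    _ ≤ ∑ c : Fin n, ∑ s : Fin S, C * ∑ t, g (pos (c, s, t)) :=
        Finset.sum_le_sum (fun c _ => Finset.sum_le_sum (fun s _ => hblock c s))
    _ = C * ∑ x, g (pos x) := by
        rw [Fintype.sum_prod_type, Finset.mul_sum]
        refine Finset.sum_congr rfl (fun c _ => ?_)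
        rw [Fintype.sum_prod_type, Finset.mul_sum]
    _ ≤ C * ∑ v, g v := by
        apply Nat.mul_le_mul_left
        rw [← Finset.sum_image (f := g) (s := Finset.univ) (g := pos) (hpos.injOn)]
        exact Finset.sum_le_sum_of_subset (Finset.subset_univ _)

end H1FS
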