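import Pool.Agent.Helper1x.FS.RFormula

/-!
# Determinantal representations and the rank bound

Let `M` be a square matrix of affine forms over a field `K` with determinant `f ≠ 0`, let `B` be a
set of variables and `ℓ` the number of entries of `M` that involve a variable of `B`.  At points
`y x`, `x : Q`, that agree outside `B`, the functions `x ↦ (∂_v f)(y x)`, `v ∉ B`, span a space of
dimension at most `ℓ² + 1`.
-/

namespace H1FS

open MvPolynomial Matrix

section adj

variable {L : Type*} [Field L] {m e : Type*} [Fintype m] [DecidableEq m] [Fintype e]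
  [DecidableEq e]

/-- adjugate of a low-rank perturbation of the identity -/
lemma adjugate_one_add_mul (A : Matrix m e L) (B : Matrix e m L) (h : (1 + A * B).det ≠ 0) :
    (1 + A * B).adjugate = (1 + B * A).det • (1 : Matrix m m L) - A * (1 + B * A).adjugate * B := by
  have hdet : (1 + A * B).det = (1 + B * A).det := det_one_add_mul_comm A B
  have h1 : (1 + A * B) * ((1 + B * A).det • (1 : Matrix m m L) - A * (1 + B * A).adjugate * B)
      = (1 + A * B) * (1 + A * B).adjugate := by
    rw [mul_adjugate, hdet]
    have h2 : (1 + A * B) * (A * (1 + B * A).adjugate * B)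
        = A * ((1 + B * A) * (1 + B * A).adjugate) * B := by
      simp only [Matrix.add_mul, Matrix.mul_add, Matrix.one_mul, Matrix.mul_assoc]
    rw [mul_sub, h2, mul_adjugate]
    simp only [Matrix.mul_smul, Matrix.smul_mul, Matrix.mul_one, smul_add]
    abel
  have h3 : IsUnit (1 + A * B) := (isUnit_iff_isUnit_det _).2 (isUnit_iff_ne_zero.2 h)
  exact (h3.mul_left_cancel h1).symm

end adj

section rankdet

variable {L : Type*} [Field L] {m e Q : Type*} [Fintype m] [DecidableEq m] [Fintype e]
  [DecidableEq e] [Fintype Q]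

omit [Fintype m] [DecidableEq m] [DecidableEq e] in
lemma triple_apply (A : Matrix m e L) (W : Matrix e e L) (R : Matrix e m L) (i j : m) :
    (A * W * R) i j = ∑ a : e, ∑ b : e, (A i a * R b j) * W a b := by
  simp only [Matrix.mul_apply, Finset.sum_mul]
  rw [Finset.sum_comm]
  exact Finset.sum_congr rfl (fun a _ => Finset.sum_congr rfl (fun b _ => by ring))

/-- adjugates of `M₀ + P X(x) R` depend on few functions of `x` -/
theorem finrank_adjugate (M₀ : Matrix m m L) (hM₀ : M₀.det ≠ 0) (P : Matrix m e L)
    (R : Matrix e m L) (X : Q → Matrix e e L) (hX : ∀ x, (M₀ + P * X x * R).det ≠ 0)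
    (S : Submodule L (Q → L))
    (hS : S ≤ Submodule.span L (Set.range fun ij : m × m => fun x : Q =>
      (M₀ + P * X x * R).adjugate ij.1 ij.2)) :
    Module.finrank L S ≤ Fintype.card e ^ 2 + 1 := by
  have hu : IsUnit M₀.det := isUnit_iff_ne_zero.2 hM₀
  let A : Matrix m e L := M₀⁻¹ * P
  let Bx : Q → Matrix e m L := fun x => X x * R
  have hfac : ∀ x, M₀ + P * X x * R = M₀ * (1 + A * Bx x) := by
    intro x
    simp only [A, Bx]
    rw [mul_add, mul_one, Matrix.mul_assoc M₀⁻¹, ← Matrix.mul_assoc M₀,
      Matrix.mul_nonsing_inv _ hu, Matrix.one_mul, Matrix.mul_assoc]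
  have hne : ∀ x, (1 + A * Bx x).det ≠ 0 := by
    intro x h
    apply hX x
    rw [hfac, det_mul, h, mul_zero]
  let u : Q → L := fun x => (1 + Bx x * A).det
  let w : e × e → Q → L := fun ij x => ((1 + Bx x * A).adjugate * X x) ij.1 ij.2
  have hspan : Submodule.span L (Set.range fun ij : m × m => fun x : Q =>
      (M₀ + P * X x * R).adjugate ij.1 ij.2) ≤
      Submodule.span L (Set.range (fun o : Option (e × e) => o.elim u w)) := by
    refine Submodule.span_le.2 ?_
    rintro _ ⟨⟨i, j⟩, rfl⟩
    have h1 : (fun x : Q => (M₀ + P * X x * R).adjugate i j) =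
        M₀.adjugate i j • u - ∑ a : e, ∑ b : e, (A i a * (R * M₀.adjugate) b j) • w (a, b) := by
      funext x
      rw [hfac, adjugate_mul_distrib, adjugate_one_add_mul A (Bx x) (hne x)]
      rw [sub_mul]
      simp only [Matrix.sub_apply, Pi.sub_apply, Pi.smul_apply, smul_eq_mul, Finset.sum_apply,
        Matrix.smul_mul, Matrix.one_mul, Matrix.smul_apply]
      congr 1
      · exact mul_comm _ _
      · have h2 : A * (1 + Bx x * A).adjugate * Bx x * M₀.adjugate
            = A * ((1 + Bx x * A).adjugate * X x) * (R * M₀.adjugate) := by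
          simp only [Bx, Matrix.mul_assoc]
        rw [h2, triple_apply]
    show (fun x : Q => (M₀ + P * X x * R).adjugate i j) ∈ _
    rw [h1]
    refine Submodule.sub_mem _ (Submodule.smul_mem _ _ (Submodule.subset_span ⟨none, rfl⟩))
      (Submodule.sum_mem _ (fun a _ => Submodule.sum_mem _ (fun b _ =>
        Submodule.smul_mem _ _ (Submodule.subset_span ⟨some (a, b), rfl⟩))))
  have h2 := Submodule.finrank_mono (hS.trans hspan)
  refine h2.trans ((finrank_range_le_card _).trans ?_)
  rw [Fintype.card_option, Fintype.card_prod, sq]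

end rankdet

section jacobi

variable {k A : Type*} [CommRing k] [CommRing A] [Algebra k A] (D : Derivation k A A)

lemma deriv_prod {ι : Type*} [DecidableEq ι] (s : Finset ι) (f : ι → A) :
    D (∏ i ∈ s, f i) = ∑ i ∈ s, (∏ j ∈ s.erase i, f j) * D (f i) := by
  induction s using Finset.induction_on with
  | empty => simp
  | insert a s ha ih =>
    rw [Finset.prod_insert ha, D.leibniz, ih, Finset.sum_insert ha, Finset.erase_insert ha,
      smul_eq_mul, smul_eq_mul, Finset.mul_sum, add_comm]
    congr 1
    refine Finset.sum_congr rfl (fun i hi => ?_)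
    have hne : a ≠ i := fun h => ha (h ▸ hi)
    rw [Finset.erase_insert_of_ne hne, Finset.prod_insert (by simp [ha]), mul_assoc]

/-- Jacobi's formula -/
lemma deriv_det {m : Type*} [Fintype m] [DecidableEq m] (M : Matrix m m A) :
    D M.det = ∑ i, ∑ j, M.adjugate i j * D (M j i) := by
  have h1 : ∀ i, (M.updateCol i (fun j => D (M j i))).det = ∑ j, M.adjugate i j * D (M j i) := by
    intro i
    rw [← cramer_apply, cramer_eq_adjugate_mulVec]
    rfl
  simp only [← h1]
  rw [det_apply', map_sum]
  simp only [det_apply']
  rw [Finset.sum_comm]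
  refine Finset.sum_congr rfl (fun σ _ => ?_)
  rw [← Finset.mul_sum, D.leibniz]
  have h2 : D (((Equiv.Perm.sign σ : ℤ) : A)) = 0 := by
    rcases Int.units_eq_one_or (Equiv.Perm.sign σ) with h | h <;> simp [h]
  rw [h2, smul_zero, add_zero, smul_eq_mul, deriv_prod]
  congr 1
  refine Finset.sum_congr rfl (fun i _ => ?_)
  rw [← Finset.mul_prod_erase Finset.univ (fun k => M.updateCol i (fun j => D (M j i)) (σ k) k)
    (Finset.mem_univ i), updateCol_self, mul_comm]
  congr 1
  refine Finset.prod_congr rfl (fun k hk => ?_)
  rw [updateCol_ne (Finset.ne_of_mem_erase hk)]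

end jacobi

section affine

set_option linter.unusedSectionVars false

variable {σ K Q : Type*} [Field K] [Fintype Q] [Fintype σ] [DecidableEq σ]
  {m : Type*} [Fintype m] [DecidableEq m]

/-- matrix of affine forms -/
noncomputable def affM (c : m → m → K) (a : m → m → σ → K) : Matrix m m (MvPolynomial σ K) :=
  Matrix.of fun i j => C (c i j) + ∑ v, C (a i j v) * X v

lemma shift_affM (c : m → m → K) (a : m → m → σ → K) (y : σ → K) (i j : m) :
    shift y (affM c a i j) = affM c a i j + C (∑ v, a i j v * y v) := by
  simp only [affM, Matrix.of_apply, map_add, map_sum, map_mul, shift_C, shift_X, mul_add,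
    Finset.sum_add_distrib]
  ring

lemma pderiv_affM (c : m → m → K) (a : m → m → σ → K) (v : σ) (i j : m) :
    pderiv v (affM c a i j) = C (a i j v) := by
  simp only [affM, Matrix.of_apply, map_add, map_sum, pderiv_C, zero_add, pderiv_C_mul]
  rw [Finset.sum_eq_single v]
  · simp
  · intro w _ hw
    rw [pderiv_X_of_ne hw]
    simp
  · simp

/-- linearly independent derivatives bound from below the number of entries that involve `B` -/
theorem card_le_det [Nonempty Q] [DecidableEq Q] (pts : Q → σ → K) (B : Finset σ)
    (hB : ∀ v, v ∉ B → ∀ x x', pts x v = pts x' v) (c : m → m → K) (a : m → m → σ → K)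
    (hf : (affM c a).det ≠ 0)
    {W : Type*} [Fintype W] [DecidableEq W] (w : W → σ)
    (hli : LinearIndependent K (fun i x => eval (pts x) (pderiv (w i) (affM c a).det)))
    (E : Finset (m × m)) (hE : ∀ i j, (i, j) ∉ E → ∀ v ∈ B, a i j v = 0) :
    Fintype.card W ≤ E.card ^ 2 + 1 := by
  obtain ⟨x0⟩ := ‹Nonempty Q›
  have h1 := transfer (eval (0 : σ → K)) (fun c => ⟨C c, by simp⟩)
    (algebraMap (MvPolynomial σ K) (Fr σ K)) (IsFractionRing.injective _ _)
    (fun (i : W) (x : Q) => shift (pts x) (pderiv (w i) (affM c a).det)) (by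
      simp only [eval_zero_shift]
      exact hli)
  let AM : MvPolynomial σ K →+* Fr σ K := algebraMap _ _
  let y₀ : σ → K := fun v => if v ∈ B then 0 else pts x0 v
  let sh : (σ → K) → MvPolynomial σ K →+* Fr σ K := fun y => AM.comp (shift y : _ →ₐ[K] _).toRingHom
  let M₀ : Matrix m m (Fr σ K) := (affM c a).map (sh y₀)
  let P : Matrix m E (Fr σ K) := Matrix.of fun i e => if i = e.1.1 then 1 else 0
  let R : Matrix E m (Fr σ K) := Matrix.of fun e j => if j = e.1.2 then 1 else 0
  let Xx : Q → Matrix E E (Fr σ K) := fun x =>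
    Matrix.diagonal fun e => AM (C (∑ v ∈ B, a e.1.1 e.1.2 v * pts x v))
  have hM : ∀ x, M₀ + P * Xx x * R = (affM c a).map (sh (pts x)) := by
    intro x
    ext i j
    have e1 : (P * Xx x * R) i j = AM (C (∑ v ∈ B, a i j v * pts x v)) := by
      rw [Matrix.mul_apply]
      simp only [Xx, Matrix.mul_diagonal, P, R, Matrix.of_apply, ite_mul, one_mul, zero_mul,
        mul_ite, mul_one, mul_zero]
      by_cases hij : (i, j) ∈ E
      · rw [Finset.sum_eq_single (⟨(i, j), hij⟩ : E)]
        · simp
        · rintro ⟨⟨i', j'⟩, h'⟩ _ hne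
          by_cases hj : j = j'
          · by_cases hi : i = i'
            · exact absurd (by subst hi hj; rfl) hne
            · simp [hi]
          · simp [hj]
        · simp
      · have e2 : ∑ v ∈ B, a i j v * pts x v = 0 :=
          Finset.sum_eq_zero (fun v hv => by rw [hE i j hij v hv, zero_mul])
        rw [e2, C_0, map_zero]
        refine Finset.sum_eq_zero ?_
        rintro ⟨⟨i', j'⟩, h'⟩ _
        by_cases hj : j = j'
        · by_cases hi : i = i'
          · subst hi hj; exact absurd h' hij
          · simp [hi]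
        · simp [hj]
    rw [Matrix.add_apply, e1]
    show AM (shift y₀ (affM c a i j)) + _ = AM (shift (pts x) (affM c a i j))
    rw [shift_affM, shift_affM, ← map_add, add_assoc, ← C_add]
    congr 3
    have e3 : ∀ v, a i j v * pts x v = a i j v * y₀ v +
        (if v ∈ B then a i j v * pts x v else 0) := by
      intro v
      simp only [y₀]
      by_cases hv : v ∈ B
      · simp [hv]
      · simp [hv, hB v hv x x0]
    have e4 : ∑ v, a i j v * pts x v = ∑ v, a i j v * y₀ v +
        ∑ v, (if v ∈ B then a i j v * pts x v else 0) := by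
      rw [← Finset.sum_add_distrib]
      exact Finset.sum_congr rfl (fun v _ => e3 v)
    rw [e4, ← Finset.sum_filter, Finset.filter_mem_eq_inter, Finset.univ_inter]
  have hsh : ∀ y, Function.Injective (sh y) := by
    intro y
    exact (IsFractionRing.injective (MvPolynomial σ K) (Fr σ K)).comp (shift_injective y)
  have hdet : ∀ y, ((affM c a).map (sh y)).det ≠ 0 := by
    intro y
    have : ((affM c a).map (sh y)).det = sh y (affM c a).det := by
      rw [RingHom.map_det]; rfl
    rw [this]
    intro h
    exact hf (hsh y (by rw [h, map_zero]))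
  let S : Submodule (Fr σ K) (Q → Fr σ K) := Submodule.span (Fr σ K)
    (Set.range fun ij : m × m => fun x : Q => (M₀ + P * Xx x * R).adjugate ij.1 ij.2)
  have hS := finrank_adjugate M₀ (hdet y₀) P R Xx (fun x => by rw [hM]; exact hdet _) S le_rfl
  rw [Fintype.card_coe] at hS
  refine le_trans ?_ hS
  have hmem : ∀ i, (fun x : Q => AM (shift (pts x) (pderiv (w i) (affM c a).det))) ∈ S := by
    intro k
    have h2 : (fun x : Q => AM (shift (pts x) (pderiv (w k) (affM c a).det))) =
        ∑ i, ∑ j, AM (C (a j i (w k))) • (fun x : Q => (M₀ + P * Xx x * R).adjugate i j) := by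
      funext x
      simp only [Finset.sum_apply, Pi.smul_apply, smul_eq_mul]
      rw [hM, deriv_det]
      simp only [pderiv_affM]
      have h3 : ((affM c a).map (sh (pts x))).adjugate = ((affM c a).adjugate).map (sh (pts x)) := by
        have := RingHom.map_adjugate (sh (pts x)) (affM c a)
        exact this.symm
      rw [h3]
      simp only [map_sum, map_mul, shift_C, Matrix.map_apply]
      refine Finset.sum_congr rfl (fun i _ => Finset.sum_congr rfl (fun j _ => ?_))
      rw [mul_comm]
      rfl
    rw [h2]
    exact Submodule.sum_mem _ (fun i _ => Submodule.sum_mem _ (fun j _ =>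
      Submodule.smul_mem _ _ (Submodule.subset_span ⟨(i, j), rfl⟩)))
  have h2 : LinearIndependent (Fr σ K) (fun i => (⟨_, hmem i⟩ : S)) := by
    apply LinearIndependent.of_comp S.subtype
    exact h1
  exact h2.fintype_card_le_finrank

end affine

end H1FS
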