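import Pool.Agent.Helper1x.FS.Stm
import Pool.Agent.Helper1x.CL.TopB

/-!
# Linear independence of the permanents `Pj`
-/

namespace H1FS

open MvPolynomial H1CL

section

variable {a : ℕ}

/-- squarefree exponent vector of a set -/
noncomputable def eA (A : Finset (Fin a)) : Fin a →₀ ℕ :=
  Finsupp.equivFunOnFinite.symm (fun t => if t ∈ A then 1 else 0)

lemma eA_apply (A : Finset (Fin a)) (t : Fin a) : eA A t = if t ∈ A then 1 else 0 := rfl

lemma eA_support (A : Finset (Fin a)) : (eA A).support = A := by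
  ext t
  rw [Finsupp.mem_support_iff, eA_apply]
  split_ifs with h <;> simp [h]

lemma eA_sub (A : Finset (Fin a)) (t : Fin a) (ht : t ∈ A) :
    eA A - Finsupp.single t 1 = eA (A.erase t) := by
  ext s
  rw [Finsupp.tsub_apply, eA_apply, eA_apply, Finsupp.single_apply]
  by_cases h : t = s
  · subst h; simp [ht]
  · simp [h, Finset.mem_erase, Ne.symm h]

lemma eA_univ : eA (Finset.univ : Finset (Fin a)) = Finsupp.equivFunOnFinite.symm (1 : Fin a → ℕ) := by
  ext s
  rw [eA_apply]
  simp

lemma eA_degree (A : Finset (Fin a)) : (eA A).degree = A.card := by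
  rw [Finsupp.degree_eq_sum]
  simp only [eA_apply]
  rw [Finset.sum_boole]
  simp

variable {κ : Type} [CommRing κ]

/-- linear form -/
noncomputable def lf {S : Type} [CommRing S] (u : Fin a → S) : MvPolynomial (Fin a) S :=
  ∑ t, C (u t) * X t

lemma coeff_mul_lf {S : Type} [CommRing S] (p : MvPolynomial (Fin a) S) (u : Fin a → S)
    (m : Fin a →₀ ℕ) :
    coeff m (p * lf u) = ∑ t, u t * (if t ∈ m.support then coeff (m - Finsupp.single t 1) p
      else 0) := by
  unfold lf
  rw [Finset.mul_sum, coeff_sum]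
  refine Finset.sum_congr rfl (fun t _ => ?_)
  have : p * (C (u t) * X t) = C (u t) * (p * X t) := by ring
  rw [this, coeff_C_mul, coeff_mul_X']

lemma coeff_mul_lf_eA {S : Type} [CommRing S] (p : MvPolynomial (Fin a) S) (u : Fin a → S)
    (A : Finset (Fin a)) :
    coeff (eA A) (p * lf u) = ∑ t ∈ A, u t * coeff (eA (A.erase t)) p := by
  rw [coeff_mul_lf, eA_support]
  rw [← Finset.sum_subset (Finset.subset_univ A)]
  · refine Finset.sum_congr rfl (fun t ht => ?_)
    rw [if_pos ht, eA_sub A t ht]
  · intro t _ ht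
    rw [if_neg ht, mul_zero]

lemma hom_lemma {S ι : Type} [CommRing S] [DecidableEq ι] (F : Finset ι) (u : ι → Fin a → S)
    (ω : S) : ∀ m : Fin a →₀ ℕ,
    coeff m (∏ i ∈ F, (lf (u i) + C ω)) = ω ^ (F.card - m.degree) *
      coeff m (∏ i ∈ F, (lf (u i) + 1)) ∧
    (F.card < m.degree → coeff m (∏ i ∈ F, (lf (u i) + 1)) = 0) := by
  induction F using Finset.induction_on with
  | empty =>
    intro m
    simp only [Finset.prod_empty, Finset.card_empty, Nat.zero_sub, pow_zero, one_mul, true_and]
    intro h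
    rw [coeff_one, if_neg]
    rintro rfl
    simp at h
  | insert i F hi ih =>
    intro m
    rw [Finset.prod_insert hi, Finset.prod_insert hi, Finset.card_insert_of_notMem hi]
    set p := ∏ i ∈ F, (lf (u i) + C ω) with hp
    set q := ∏ i ∈ F, (lf (u i) + 1) with hq
    have e1 : (lf (u i) + C ω) * p = p * lf (u i) + C ω * p := by ring
    have e2 : (lf (u i) + 1) * q = q * lf (u i) + q := by ring
    have hd : ∀ t ∈ m.support, (m - Finsupp.single t 1).degree + 1 = m.degree := by
      intro t ht
      have h1 : Finsupp.single t 1 ≤ m := by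
        rw [Finsupp.single_le_iff]
        exact Nat.one_le_iff_ne_zero.2 (Finsupp.mem_support_iff.1 ht)
      have h2 := congrArg Finsupp.degree (tsub_add_cancel_of_le h1)
      rw [map_add, Finsupp.degree_single] at h2
      exact h2
    rw [e1, e2, coeff_add, coeff_add, coeff_mul_lf, coeff_mul_lf, coeff_C_mul]
    constructor
    · rw [mul_add, Finset.mul_sum]
      congr 1
      · refine Finset.sum_congr rfl (fun t _ => ?_)
        split_ifs with ht
        · rw [(ih _).1]
          have h1 : F.card - (m - Finsupp.single t 1).degree = F.card + 1 - m.degree := by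
            have := hd t ht
            omega
          rw [h1]
          ring
        · simp
      · rw [(ih _).1]
        by_cases hm : m.degree ≤ F.card
        · have h1 : F.card + 1 - m.degree = (F.card - m.degree) + 1 := by omega
          rw [h1, pow_succ]
          ring
        · rw [(ih _).2 (by omega)]
          simp
    · intro h
      rw [(ih _).2 (by omega), add_zero]
      refine Finset.sum_eq_zero (fun t _ => ?_)
      split_ifs with ht
      · rw [(ih _).2 (by have := hd t ht; omega), mul_zero]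
      · simp

lemma top_omega (r : ℕ) : top ((∑ i : Fin r, X i : MvPolynomial (Fin r) κ) ^ r)
    = (r.factorial : κ) := by
  have h := top5 (Fin r) κ r (by simp) (fun _ => 1) (fun _ => 0)
  simpa using h

lemma Lm_inr (a r : ℕ) (x : Fin a → κ) (c : Fin a ⊕ Fin (r + 1)) (s : Fin r) :
    Lm a r x c (Sum.inr s) = 1 := by
  rcases c with c | c <;> rfl

lemma Pj_eq (r : ℕ) (x : Fin a → κ) (j : Fin (r + 1)) :
    Pj a r x j = (r.factorial : κ) * coeff (eA Finset.univ)
      (∏ c ∈ Finset.univ.erase (Sum.inr j), (lf (fun t => Lm a r x c (Sum.inl t)) + 1)) := by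
  classical
  unfold Pj
  rw [← top1 _ (Fin a ⊕ Fin r) κ (fun (c : {c : Fin a ⊕ Fin (r + 1) // c ≠ Sum.inr j})
    (d : Fin a ⊕ Fin r) => Lm a r x c.1 d), top2]
  set Ω : MvPolynomial (Fin r) κ := ∑ i, X i with hΩ
  have h1 : sumAlgEquiv κ (Fin a) (Fin r) (∏ i : {c : Fin a ⊕ Fin (r + 1) // c ≠ Sum.inr j},
      ∑ d, C (Lm a r x i.1 d) * X d)
      = ∏ c ∈ Finset.univ.erase (Sum.inr j : Fin a ⊕ Fin (r + 1)),
        (lf (fun t => C (Lm a r x c (Sum.inl t))) + C Ω) := by
    rw [map_prod]
    rw [← Finset.prod_subtype (Finset.univ.erase (Sum.inr j : Fin a ⊕ Fin (r + 1)))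
      (p := fun c => c ≠ Sum.inr j) (by simp) (fun c => sumAlgEquiv κ (Fin a) (Fin r)
        (∑ d, C (Lm a r x c d) * X d))]
    refine Finset.prod_congr rfl (fun c _ => ?_)
    rw [map_sum, Fintype.sum_sum_type]
    simp only [map_mul, sumAlgEquiv_X_inl, sumAlgEquiv_X_inr, sumAlgEquiv_C_inl, Lm_inr]
    unfold lf
    rw [hΩ, map_sum]
    simp
  rw [h1, top_apply (K := Fin a), ← eA_univ, (hom_lemma _ _ _ _).1]
  have h2 : (∏ i ∈ Finset.univ.erase (Sum.inr j : Fin a ⊕ Fin (r + 1)),
      (lf (fun t => (C (Lm a r x i (Sum.inl t)) : MvPolynomial (Fin r) κ)) + 1))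
      = MvPolynomial.map C (∏ c ∈ Finset.univ.erase (Sum.inr j : Fin a ⊕ Fin (r + 1)),
        (lf (fun t => Lm a r x c (Sum.inl t)) + 1)) := by
    rw [map_prod]
    refine Finset.prod_congr rfl (fun c _ => ?_)
    unfold lf
    rw [map_add, map_one, map_sum]
    simp
  rw [h2, coeff_map, eA_degree, mul_comm, ← smul_eq_C_mul, map_smul]
  have h3 : (Finset.univ.erase (Sum.inr j : Fin a ⊕ Fin (r + 1))).card
      - (Finset.univ : Finset (Fin a)).card = r := by
    rw [Finset.card_erase_of_mem (Finset.mem_univ _)]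
    simp
  rw [h3, top_omega, smul_eq_mul, mul_comm]

/-- polynomials whose squarefree coefficients vanish -/
def sqfI (a : ℕ) (κ : Type) [CommRing κ] : Ideal (MvPolynomial (Fin a) κ) where
  carrier := {p | ∀ A : Finset (Fin a), coeff (eA A) p = 0}
  add_mem' := by
    intro p q hp hq A
    rw [coeff_add, hp A, hq A, add_zero]
  zero_mem' := by
    intro A
    exact coeff_zero _
  smul_mem' := by
    intro q
    induction q using MvPolynomial.induction_on with
    | C c =>
      intro p hp A
      rw [smul_eq_mul, coeff_C_mul, hp A, mul_zero]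
    | add q q' hq hq' =>
      intro p hp A
      rw [add_smul, coeff_add, hq hp A, hq' hp A, add_zero]
    | mul_X q t hq =>
      intro p hp A
      have h1 : (q * X t) • p = q • (p * X t) := by
        simp only [smul_eq_mul]; ring
      rw [h1]
      refine hq ?_ A
      intro B
      rw [coeff_mul_X', eA_support]
      split_ifs with ht
      · rw [eA_sub B t ht]; exact hp _
      · rfl

lemma mem_sqfI (p : MvPolynomial (Fin a) κ) :
    p ∈ sqfI a κ ↔ ∀ A : Finset (Fin a), coeff (eA A) p = 0 := Iff.rfl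

lemma coeff_lf_pow (u : Fin a → κ) (k : ℕ) : ∀ A : Finset (Fin a),
    coeff (eA A) (lf u ^ k) = if k = A.card then (k.factorial : κ) * ∏ t ∈ A, u t else 0 := by
  induction k with
  | zero =>
    intro A
    rw [pow_zero, coeff_one]
    by_cases hA : A = ∅
    · subst hA
      rw [if_pos, if_pos]
      · simp
      · simp
      · ext t; simp [eA_apply]
    · rw [if_neg, if_neg]
      · intro h; exact hA (Finset.card_eq_zero.1 h.symm)
      · intro h
        apply hA
        rw [← eA_support A, ← h]
        simp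
  | succ k ih =>
    intro A
    rw [pow_succ, coeff_mul_lf_eA]
    by_cases hA : k + 1 = A.card
    · rw [if_pos hA]
      have h1 : ∀ t ∈ A, u t * coeff (eA (A.erase t)) (lf u ^ k)
          = (k.factorial : κ) * ∏ t ∈ A, u t := by
        intro t ht
        rw [ih, if_pos (by rw [Finset.card_erase_of_mem ht]; omega),
          ← Finset.mul_prod_erase A u ht]
        ring
      rw [Finset.sum_congr rfl h1, Finset.sum_const, ← hA, nsmul_eq_mul, Nat.factorial_succ]
      push_cast
      ring
    · rw [if_neg hA]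
      refine Finset.sum_eq_zero (fun t ht => ?_)
      rw [ih, if_neg, mul_zero]
      rw [Finset.card_erase_of_mem ht]
      have : 0 < A.card := Finset.card_pos.2 ⟨t, ht⟩
      omega

/-- inverse of `1 + lf u` modulo `sqfI` -/
noncomputable def Einv (u : Fin a → κ) : MvPolynomial (Fin a) κ :=
  ∑ i ∈ Finset.range (a + 1), (-lf u) ^ i

lemma coeff_neg_lf_pow (u : Fin a → κ) (k : ℕ) (A : Finset (Fin a)) :
    coeff (eA A) ((-lf u) ^ k) = if k = A.card then (-1) ^ k * (k.factorial : κ) * ∏ t ∈ A, u t
      else 0 := by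
  have h1 : (-lf u) ^ k = C ((-1) ^ k) * lf u ^ k := by
    rw [neg_pow]; simp
  rw [h1, coeff_C_mul, coeff_lf_pow]
  split_ifs <;> ring

lemma coeff_Einv (u : Fin a → κ) (A : Finset (Fin a)) :
    coeff (eA A) (Einv u) = (-1) ^ A.card * (A.card.factorial : κ) * ∏ t ∈ A, u t := by
  unfold Einv
  rw [coeff_sum]
  simp_rw [coeff_neg_lf_pow]
  rw [Finset.sum_ite_eq', if_pos]
  rw [Finset.mem_range]
  have := Finset.card_le_univ A
  rw [Fintype.card_fin] at this
  omega

lemma Einv_mul (u : Fin a → κ) : 1 - Einv u * (lf u + 1) ∈ sqfI a κ := by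
  have h1 : Einv u * (lf u + 1) = 1 - (-lf u) ^ (a + 1) := by
    have h2 := geom_sum_mul (-lf u) (a + 1)
    unfold Einv
    linear_combination -h2
  rw [h1, mem_sqfI]
  intro A
  rw [sub_sub_cancel, coeff_neg_lf_pow, if_neg]
  have := Finset.card_le_univ A
  rw [Fintype.card_fin] at this
  omega

lemma key {ι : Type} [Fintype ι] [DecidableEq ι] (u : ι → Fin a → κ) (α : ι → κ)
    (h : ∑ j, C (α j) * ∏ j' ∈ Finset.univ.erase j, (lf (u j') + 1) ∈ sqfI a κ) :
    ∑ j, C (α j) * Einv (u j) ∈ sqfI a κ := by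
  rw [← Ideal.Quotient.eq_zero_iff_mem] at h ⊢
  set π := Ideal.Quotient.mk (sqfI a κ) with hπ
  have hv : ∀ j, π (Einv (u j)) * π (lf (u j) + 1) = 1 := by
    intro j
    rw [← map_mul, ← map_one π, eq_comm, ← sub_eq_zero, ← map_sub]
    exact Ideal.Quotient.eq_zero_iff_mem.2 (Einv_mul (u j))
  rw [map_sum] at h ⊢
  have h1 := congrArg (fun z => z * ∏ j, π (Einv (u j))) h
  simp only [zero_mul] at h1
  rw [Finset.sum_mul] at h1
  rw [← h1]
  refine Finset.sum_congr rfl (fun j _ => ?_)
  rw [← Finset.mul_prod_erase Finset.univ (fun j => π (Einv (u j))) (Finset.mem_univ j),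
    map_mul, map_mul, map_prod]
  have h2 : (∏ j' ∈ Finset.univ.erase j, π (lf (u j') + 1)) *
      ∏ j' ∈ Finset.univ.erase j, π (Einv (u j')) = 1 := by
    rw [← Finset.prod_mul_distrib]
    refine Finset.prod_eq_one (fun j' _ => ?_)
    rw [mul_comm, hv]
  linear_combination (-(π (C (α j)) * π (Einv (u j)))) * h2

end

section

variable {κ : Type} [Field κ] [CharZero κ] {a : ℕ}

lemma key2 {ι : Type} [Fintype ι] [DecidableEq ι] (u : ι → Fin a → κ) (α : ι → κ)
    (h : ∑ j, C (α j) * ∏ j' ∈ Finset.univ.erase j, (lf (u j') + 1) ∈ sqfI a κ)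
    (A : Finset (Fin a)) : ∑ j, α j * ∏ t ∈ A, u j t = 0 := by
  have h1 := key u α h A
  rw [coeff_sum] at h1
  simp_rw [coeff_C_mul, coeff_Einv] at h1
  have h2 : ((-1) ^ A.card * (A.card.factorial : κ)) * ∑ j, α j * ∏ t ∈ A, u j t = 0 := by
    rw [Finset.mul_sum, ← h1]
    refine Finset.sum_congr rfl (fun j _ => ?_)
    ring
  rcases mul_eq_zero.1 h2 with h3 | h3
  · exfalso
    rcases mul_eq_zero.1 h3 with h4 | h4
    · exact (pow_ne_zero _ (by norm_num)) h4
    · exact (Nat.cast_ne_zero.2 (Nat.factorial_ne_zero _)) h4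
  · exact h3

/-- bits -/
def bit (κ : Type) [Field κ] (j t : ℕ) : κ := if j.testBit t then 1 else 0

lemma bits_indep (r : ℕ) (hr : r + 1 ≤ 2 ^ a) (α : Fin (r + 1) → κ)
    (h : ∀ A : Finset (Fin a), ∑ j, α j * ∏ t ∈ A, bit κ j.1 t.1 = 0) : ∀ j, α j = 0 := by
  classical
  by_contra hcon
  push Not at hcon
  obtain ⟨j1, hj1⟩ := hcon
  set b : Fin (r + 1) → Finset (Fin a) := fun j => Finset.univ.filter (fun t => j.1.testBit t.1)
    with hb
  obtain ⟨j0, hj0, hmax⟩ := Finset.exists_max_image
    (Finset.univ.filter (fun j => α j ≠ 0)) (fun j => (b j).card)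
    ⟨j1, Finset.mem_filter.2 ⟨Finset.mem_univ _, hj1⟩⟩
  have hj0' := (Finset.mem_filter.1 hj0).2
  apply hj0'
  have h1 := h (b j0)
  rw [Finset.sum_eq_single j0] at h1
  · have h2 : ∏ t ∈ b j0, bit κ j0.1 t.1 = 1 := by
      refine Finset.prod_eq_one (fun t ht => ?_)
      have h3 := (Finset.mem_filter.1 ht).2
      unfold bit
      rw [if_pos h3]
    rwa [h2, mul_one] at h1
  · intro j _ hj
    by_cases hα : α j = 0
    · rw [hα, zero_mul]
    · by_cases hsub : b j0 ⊆ b j
      · exfalso
        have h2 := hmax j (Finset.mem_filter.2 ⟨Finset.mem_univ _, hα⟩)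
        have h3 := Finset.eq_of_subset_of_card_le hsub h2
        apply hj
        apply Fin.ext
        apply Nat.eq_of_testBit_eq
        intro i
        by_cases hi : i < a
        · have h4 : (⟨i, hi⟩ : Fin a) ∈ b j0 ↔ (⟨i, hi⟩ : Fin a) ∈ b j := by rw [h3]
          simp only [hb, Finset.mem_filter, Finset.mem_univ, true_and] at h4
          exact Bool.eq_iff_iff.2 h4.symm
        · push Not at hi
          have hp : 2 ^ a ≤ 2 ^ i := Nat.pow_le_pow_right (by norm_num) hi
          rw [Nat.testBit_lt_two_pow (by omega), Nat.testBit_lt_two_pow (by omega)]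
      · rw [Finset.not_subset] at hsub
        obtain ⟨t, ht, ht'⟩ := hsub
        rw [Finset.prod_eq_zero ht, mul_zero]
        unfold bit
        rw [if_neg]
        intro h3
        exact ht' (Finset.mem_filter.2 ⟨Finset.mem_univ _, h3⟩)
  · intro hh; exact absurd (Finset.mem_univ _) hh

lemma coeff_top_prod (P : MvPolynomial (Fin a) κ) (U : Finset (Fin a)) :
    coeff (eA Finset.univ) ((∏ t ∈ U, (1 + X t)) * P)
      = ∑ S ∈ U.powerset, coeff (eA Sᶜ) P := by
  rw [Finset.prod_one_add, Finset.sum_mul, coeff_sum]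
  refine Finset.sum_congr rfl (fun S _ => ?_)
  have h1 : (∏ t ∈ S, X t : MvPolynomial (Fin a) κ) = monomial (eA S) 1 := by
    have h2 : eA S = ∑ t ∈ S, Finsupp.single t 1 := by
      ext s
      rw [eA_apply, Finsupp.finsetSum_apply]
      simp [Finsupp.single_apply]
    rw [h2, monomial_sum_one]
    rfl
  have h3 : eA (Finset.univ : Finset (Fin a)) = eA Sᶜ + eA S := by
    ext s
    rw [Finsupp.add_apply, eA_apply, eA_apply, eA_apply]
    by_cases hs : s ∈ S <;> simp [hs]
  rw [h1, h3, mul_comm, coeff_mul_monomial, mul_one]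

/-- **Job IND** -/
theorem indep : StmInd := by
  intro κ _ _ a r hr
  classical
  rw [Fintype.linearIndependent_iff]
  intro α hα
  have hα' : ∀ U : Finset (Fin a), ∑ j, α j * Pj a r (ind a κ U) j = 0 := by
    intro U
    have := congrFun hα U
    simpa [Finset.sum_apply] using this
  set u : Fin (r + 1) → Fin a → κ := fun j t => bit κ j.1 t.1 with hu
  apply bits_indep r hr α
  intro A
  refine key2 u α ?_ A
  set P := ∑ j, C (α j) * ∏ j' ∈ Finset.univ.erase j, (lf (u j') + 1) with hP
  have h1 : ∀ U : Finset (Fin a), ∑ S ∈ U.powerset, coeff (eA Sᶜ) P = 0 := by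
    intro U
    have h2 := hα' U
    simp_rw [Pj_eq] at h2
    have h3 : ∀ j : Fin (r + 1), ∏ c ∈ Finset.univ.erase (Sum.inr j : Fin a ⊕ Fin (r + 1)),
        (lf (fun t => Lm a r (ind a κ U) c (Sum.inl t)) + 1)
        = (∏ t ∈ U, (1 + X t)) * ∏ j' ∈ Finset.univ.erase j, (lf (u j') + 1) := by
      intro j
      have h4 : Finset.univ.erase (Sum.inr j : Fin a ⊕ Fin (r + 1))
          = (Finset.univ : Finset (Fin a)).disjSum (Finset.univ.erase j) := by
        ext c
        rcases c with c | c <;> simp
      rw [h4, Finset.prod_disjSum]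
      congr 1
      · have h5 : ∀ t : Fin a, (lf (fun t' => Lm a r (ind a κ U) (Sum.inl t) (Sum.inl t')) + 1 :
            MvPolynomial (Fin a) κ) = if t ∈ U then 1 + X t else 1 := by
          intro t
          unfold lf
          rw [Finset.sum_eq_single t]
          · have h6 : Lm a r (ind a κ U) (Sum.inl t) (Sum.inl t) = ind a κ U t := by
              show (if t = t then _ else _) = _
              rw [if_pos rfl]
            show C (Lm a r (ind a κ U) (Sum.inl t) (Sum.inl t)) * X t + 1 = _
            rw [h6]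
            unfold ind
            split_ifs
            · rw [C_1]; ring
            · rw [C_0]; ring
          · intro t' _ ht'
            have h6 : Lm a r (ind a κ U) (Sum.inl t) (Sum.inl t') = 0 := by
              show (if t = t' then _ else _) = _
              rw [if_neg (Ne.symm ht')]
            show C (Lm a r (ind a κ U) (Sum.inl t) (Sum.inl t')) * X t' = 0
            rw [h6, C_0, zero_mul]
          · intro hh; exact absurd (Finset.mem_univ _) hh
        rw [Finset.prod_congr rfl (fun t _ => h5 t), Finset.prod_ite_mem, Finset.univ_inter]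
    simp_rw [h3] at h2
    rw [← coeff_top_prod]
    have h4 : (r.factorial : κ) * coeff (eA Finset.univ) ((∏ t ∈ U, (1 + X t)) * P) = 0 := by
      rw [hP, Finset.mul_sum, coeff_sum, Finset.mul_sum, ← h2]
      refine Finset.sum_congr rfl (fun j _ => ?_)
      have h5 : (∏ t ∈ U, (1 + X t)) * (C (α j) * ∏ j' ∈ Finset.univ.erase j, (lf (u j') + 1))
          = C (α j) * ((∏ t ∈ U, (1 + X t)) * ∏ j' ∈ Finset.univ.erase j, (lf (u j') + 1)) := by
        ring
      rw [h5, coeff_C_mul]
      ring
    exact (mul_eq_zero.1 h4).resolve_left (Nat.cast_ne_zero.2 (Nat.factorial_ne_zero _))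
  have h2 : ∀ U : Finset (Fin a), coeff (eA Uᶜ) P = 0 := by
    intro U
    induction U using Finset.strongInduction with
    | H U ih =>
      have h3 := h1 U
      rw [← Finset.insert_erase (Finset.mem_powerset_self U), Finset.sum_insert
        (Finset.notMem_erase _ _)] at h3
      rw [Finset.sum_eq_zero, add_zero] at h3
      · exact h3
      · intro S hS
        rw [Finset.mem_erase, Finset.mem_powerset] at hS
        exact ih S (Finset.ssubset_iff_subset_ne.2 ⟨hS.2, hS.1⟩)
  intro B
  have := h2 Bᶜ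
  rwa [compl_compl] at this

end

end H1FS
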