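import Pool.Agent.Helper1x.FS.Main
import Pool.Agent.Helper1x.FS.Ind
import Pool.Agent.Helper1x.FS.Block
import Pool.Agent.Helper1x.DC.BorderRat

/-!
# Formula size and determinantal representations of the permanent: final bounds
-/

namespace H1FS

open MvPolynomial Filter Topology

universe u

/-! ### Degrees -/

lemma RFml.exists_num_den {σ K : Type*} [Field K] (F : RFml σ K) :
    ∃ p q : MvPolynomial σ K, q ≠ 0 ∧
      F.val = algebraMap _ (Fr σ K) p / algebraMap _ (Fr σ K) q ∧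
      p.totalDegree ≤ F.size ∧ q.totalDegree ≤ F.size := by
  have hne : ∀ q : MvPolynomial σ K, q ≠ 0 → algebraMap _ (Fr σ K) q ≠ 0 := fun q hq h =>
    hq (IsFractionRing.injective (MvPolynomial σ K) (Fr σ K) (by rw [h, map_zero]))
  induction F with
  | var v =>
    refine ⟨X v, 1, one_ne_zero, by simp [RFml.val], ?_, ?_⟩
    · simp [RFml.size]
    · simp [RFml.size]
  | const c =>
    refine ⟨C c, 1, one_ne_zero, by simp [RFml.val], ?_, ?_⟩
    · simp [RFml.size]
    · simp [RFml.size]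
  | add F G hF hG =>
    obtain ⟨p, q, hq, h, hp1, hq1⟩ := hF
    obtain ⟨p', q', hq', h', hp1', hq1'⟩ := hG
    refine ⟨p * q' + p' * q, q * q', mul_ne_zero hq hq', ?_, ?_, ?_⟩
    · simp only [RFml.val, h, h', map_add, map_mul]
      have := hne q hq
      have := hne q' hq'
      field_simp
    · simp only [RFml.size]
      refine (totalDegree_add _ _).trans (max_le ?_ ?_)
      · exact (totalDegree_mul _ _).trans (add_le_add hp1 hq1')
      · exact (totalDegree_mul _ _).trans (by omega)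
    · simp only [RFml.size]
      exact (totalDegree_mul _ _).trans (add_le_add hq1 hq1')
  | mul F G hF hG =>
    obtain ⟨p, q, hq, h, hp1, hq1⟩ := hF
    obtain ⟨p', q', hq', h', hp1', hq1'⟩ := hG
    refine ⟨p * p', q * q', mul_ne_zero hq hq', ?_, ?_, ?_⟩
    · simp only [RFml.val, h, h', map_mul]
      have := hne q hq
      have := hne q' hq'
      field_simp
    · simp only [RFml.size]
      exact (totalDegree_mul _ _).trans (add_le_add hp1 hp1')
    · simp only [RFml.size]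
      exact (totalDegree_mul _ _).trans (add_le_add hq1 hq1')
  | div F G hF hG =>
    obtain ⟨p, q, hq, h, hp1, hq1⟩ := hF
    obtain ⟨p', q', hq', h', hp1', hq1'⟩ := hG
    by_cases hp' : p' = 0
    · refine ⟨0, 1, one_ne_zero, ?_, ?_, ?_⟩
      · simp [RFml.val, h', hp']
      · simp
      · simp
    · refine ⟨p * q', q * p', mul_ne_zero hq hp', ?_, ?_, ?_⟩
      · simp only [RFml.val, h, h', map_mul]
        have := hne q hq
        have := hne q' hq'
        have := hne p' hp'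
        field_simp
      · simp only [RFml.size]
        exact (totalDegree_mul _ _).trans (add_le_add hp1 hq1')
      · simp only [RFml.size]
        exact (totalDegree_mul _ _).trans (add_le_add hq1 hp1')

lemma RFml.totalDegree_le {σ K : Type*} [Field K] (F : RFml σ K) (g : MvPolynomial σ K)
    (hF : F.val = algebraMap _ _ g) : g.totalDegree ≤ F.size := by
  obtain ⟨p, q, hq, h, hp1, hq1⟩ := F.exists_num_den
  by_cases hg : g = 0
  · rw [hg]; simp
  have hq0 : algebraMap _ (Fr σ K) q ≠ 0 := fun h =>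
    hq (IsFractionRing.injective (MvPolynomial σ K) (Fr σ K) (by rw [h, map_zero]))
  have h1 : g * q = p := by
    apply IsFractionRing.injective (MvPolynomial σ K) (Fr σ K)
    rw [map_mul, ← hF, h, div_mul_cancel₀ _ hq0]
  have h2 := totalDegree_mul_of_isDomain hg hq
  rw [h1] at h2
  omega

/-! ### Affine forms -/

section affine

set_option linter.unusedSectionVars false

variable {K σ : Type*} [Field K] [Fintype σ] [DecidableEq σ]

lemma affine_eq (f : MvPolynomial σ K) (hf : f.totalDegree ≤ 1) :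
    f = C (coeff 0 f) + ∑ s, C (coeff (Finsupp.single s 1) f) * X s := by
  ext d
  rw [coeff_add, coeff_C, coeff_sum]
  simp only [coeff_C_mul, coeff_X]
  by_cases hd : d = 0
  · subst hd
    rw [if_pos rfl, Finset.sum_eq_zero, add_zero]
    intro s _
    rw [if_neg, mul_zero]
    exact Finsupp.single_ne_zero.mpr one_ne_zero
  · rw [if_neg (Ne.symm hd), zero_add]
    obtain ⟨s, hs⟩ : ∃ s, d s ≠ 0 := by
      by_contra hno
      push Not at hno
      exact hd (Finsupp.ext hno)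
    by_cases hds : Finsupp.single s 1 = d
    · rw [Finset.sum_eq_single s]
      · rw [if_pos hds, mul_one, hds]
      · intro t _ hts
        rw [if_neg, mul_zero]
        intro h
        rw [← hds] at h
        exact hts (Finsupp.single_left_injective one_ne_zero h)
      · intro h
        exact absurd (Finset.mem_univ _) h
    · have hdeg : 2 ≤ ∑ t ∈ d.support, d t := by
        by_contra hlt
        push Not at hlt
        apply hds
        have hs1 : d s ≤ ∑ t ∈ d.support, d t :=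
          Finset.single_le_sum (f := fun t => d t) (fun _ _ => Nat.zero_le _)
            (Finsupp.mem_support_iff.mpr hs)
        ext t
        by_cases hts : t = s
        · subst hts
          rw [Finsupp.single_eq_same]
          omega
        · rw [Finsupp.single_eq_of_ne hts]
          by_contra ht
          have hts' : ({s, t} : Finset σ) ⊆ d.support := by
            intro u hu
            rw [Finset.mem_insert, Finset.mem_singleton] at hu
            rcases hu with rfl | rfl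
            · exact Finsupp.mem_support_iff.mpr hs
            · exact Finsupp.mem_support_iff.mpr (Ne.symm ht)
          have := Finset.sum_le_sum_of_subset (f := fun t => d t) hts'
          rw [Finset.sum_pair (Ne.symm hts)] at this
          have ht1 : d t ≠ 0 := Ne.symm ht
          omega
      rw [coeff_eq_zero_of_totalDegree_lt (lt_of_le_of_lt hf hdeg)]
      symm
      apply Finset.sum_eq_zero
      intro t _
      by_cases hts : Finsupp.single t 1 = d
      · exfalso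
        apply hds
        have : s = t := by
          by_contra hst
          apply hs
          rw [← hts, Finsupp.single_eq_of_ne hst]
        rw [this]; exact hts
      · rw [if_neg hts, mul_zero]

lemma coeff_single_eq_zero (f : MvPolynomial σ K) (s : σ) (hs : s ∉ f.vars) :
    coeff (Finsupp.single s 1) f = 0 := by
  by_contra h
  apply hs
  rw [mem_vars_iff_mem_support]
  refine ⟨Finsupp.single s 1, mem_support_iff.2 h, ?_⟩
  rw [Finsupp.mem_support_iff, Finsupp.single_eq_same]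
  exact one_ne_zero

lemma totalDegree_le_vars (f : MvPolynomial σ K) (hf : f.totalDegree ≤ 1) :
    f.totalDegree ≤ f.vars.card := by
  by_cases h : f.vars = ∅
  · rw [vars_eq_empty_iff_eq_C] at h
    rw [h, totalDegree_C]
    exact Nat.zero_le _
  · have := Finset.card_pos.2 (Finset.nonempty_iff_ne_empty.2 h)
    omega

lemma totalDegree_det_le {m : ℕ} (M : Matrix (Fin m) (Fin m) (MvPolynomial σ K))
    (hM : ∀ i j, (M i j).totalDegree ≤ 1) :
    M.det.totalDegree ≤ ∑ i, ∑ j, (M i j).vars.card := by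
  rw [Matrix.det_apply]
  refine totalDegree_finsetSum_le (fun τ _ => ?_)
  refine (totalDegree_smul_le _ _).trans ?_
  refine (totalDegree_finsetProd _ _).trans ?_
  rw [Finset.sum_comm]
  refine Finset.sum_le_sum (fun i _ => ?_)
  refine (totalDegree_le_vars _ (hM _ _)).trans ?_
  exact Finset.single_le_sum (f := fun j => (M j i).vars.card) (fun _ _ => Nat.zero_le _)
    (Finset.mem_univ (τ i))

/-- determinantal representations, in terms of matrices of polynomials -/
theorem det_of_good' {a r₁ r₂ n S : ℕ}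
    (hn : n = 2 * a + r₁ + r₂ + 1) (hS : 2 * a * S ≤ n) (hr : 1 ≤ r₁) (hrr : r₁ ≤ r₂)
    (g : MvPolynomial (Fin n × Fin n) K) (hg : Good a r₁ r₂ n g) (hg0 : g ≠ 0)
    {m : ℕ} (M : Matrix (Fin m) (Fin m) (MvPolynomial (Fin n × Fin n) K))
    (hM : ∀ i j, (M i j).totalDegree ≤ 1) (hdet : M.det = g) :
    n * S * (r₁ + 1) ≤ ∑ i, ∑ j, (M i j).vars.card := by
  classical
  refine det_of_good hn hS hr hrr g hg hg0 (fun i j => coeff 0 (M i j))
    (fun i j v => coeff (Finsupp.single v 1) (M i j)) ?_ _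
    (fun v => (Finset.univ.filter (fun ij : Fin m × Fin m => v ∈ (M ij.1 ij.2).vars)).card) ?_ ?_
  · rw [← hdet]
    congr 1
    ext1 i j
    exact (affine_eq _ (hM i j)).symm
  · intro v
    refine ⟨_, le_rfl, fun i j hij => ?_⟩
    rw [Finset.mem_filter] at hij
    exact coeff_single_eq_zero _ _ (fun h => hij ⟨Finset.mem_univ _, h⟩)
  · simp only [Finset.card_filter]
    rw [Finset.sum_comm, Fintype.sum_prod_type]
    refine Finset.sum_le_sum (fun i _ => Finset.sum_le_sum (fun j _ => ?_))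
    rw [Finset.sum_boole]
    simp

end affine

/-! ### Parameters -/

/-- choice of the parameters -/
lemma exists_params (n : ℕ) (hn : 2 ^ 10 ≤ n) : ∃ a r₁ r₂ S : ℕ,
    n = 2 * a + r₁ + r₂ + 1 ∧ 2 * a * S ≤ n ∧ r₁ + 1 ≤ 2 ^ a ∧ r₂ + 1 ≤ 2 ^ a ∧
    100 ≤ r₁ ∧ r₁ ≤ r₂ ∧ r₂ ≤ r₁ + 1 ∧ 2 ^ a ≤ n ∧ n + 1 ≤ 2 * a * S + 2 * a ∧
    50 * (2 * a) ≤ n + 50 ∧ 1 ≤ a := by
  set b := Nat.clog 2 n with hb
  have hb1 : n ≤ 2 ^ b := Nat.le_pow_clog (by norm_num) n
  have hb2 : 2 ^ (b - 1) < n := Nat.pow_pred_clog_lt_self (by norm_num) (by omega)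
  have hb3 : 10 ≤ b := by
    by_contra h
    push Not at h
    have : 2 ^ b ≤ 2 ^ 9 := Nat.pow_le_pow_right (by norm_num) (by omega)
    omega
  obtain ⟨a, ha⟩ : ∃ a, b = a + 1 := ⟨b - 1, by omega⟩
  have ha9 : 9 ≤ a := by omega
  rw [ha, Nat.add_sub_cancel] at hb2
  rw [ha, pow_succ] at hb1
  have hpow : ∀ k, 10 ≤ k → 50 * (2 * k) ≤ 2 ^ k + 50 := by
    intro k hk
    induction k, hk using Nat.le_induction with
    | base => norm_num
    | succ k hk ih =>
      rw [pow_succ]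
      have : 1000 ≤ 2 ^ k := by
        calc 1000 ≤ 2 ^ 10 := by norm_num
          _ ≤ 2 ^ k := Nat.pow_le_pow_right (by norm_num) hk
      omega
  have h50 : 50 * (2 * a) ≤ n + 50 := by
    by_cases h9 : a = 9
    · subst h9; omega
    · have := hpow a (by omega)
      omega
  have hmod := Nat.div_add_mod n (2 * a)
  have hlt := Nat.mod_lt n (show 2 * a > 0 by omega)
  refine ⟨a, (n - 2 * a + 1) / 2 - 1, (n - 2 * a + 1 + 1) / 2 - 1, n / (2 * a), ?_, ?_, ?_, ?_,
    ?_, ?_, ?_, ?_, ?_, ?_, ?_⟩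
  · omega
  · omega
  · omega
  · omega
  · omega
  · omega
  · omega
  · omega
  · omega
  · omega
  · omega

/-- numerical consequence for formulas -/
lemma numerics_formula (n a r₁ r₂ S s : ℕ) (hn : 2 ^ 10 ≤ n) (h1 : n = 2 * a + r₁ + r₂ + 1)
    (h4 : r₁ ≤ r₂) (h5 : r₂ ≤ r₁ + 1) (h6 : 2 ^ a ≤ n) (h7 : n + 1 ≤ 2 * a * S + 2 * a)
    (h8 : 50 * (2 * a) ≤ n + 50) (ha : 1 ≤ a)
    (hs : n * S * ((r₂ + 1) * (r₁ + 1)) ≤ 4 * s) :
    (n : ℝ) ^ 4 ≤ 50 * Real.log n * s := by
  have hn' : (1024 : ℝ) ≤ n := by exact_mod_cast hn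
  have hlog : (a : ℝ) * Real.log 2 ≤ Real.log n := by
    rw [← Real.log_pow]
    apply Real.log_le_log (by positivity)
    exact_mod_cast h6
  have hl2 : (0.6931471803 : ℝ) < Real.log 2 := Real.log_two_gt_d9
  have ha' : (a : ℝ) * 0.6931471803 ≤ Real.log n := by
    refine le_trans ?_ hlog
    exact mul_le_mul_of_nonneg_left hl2.le (Nat.cast_nonneg _)
  have hs' : (n : ℝ) * S * ((r₂ + 1) * (r₁ + 1)) ≤ 4 * s := by exact_mod_cast hs
  have h7' : (n : ℝ) + 1 ≤ 2 * a * S + 2 * a := by exact_mod_cast h7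
  have h8' : 50 * (2 * (a : ℝ)) ≤ n + 50 := by exact_mod_cast h8
  have h1' : (n : ℝ) = 2 * a + r₁ + r₂ + 1 := by exact_mod_cast h1
  have h4' : (r₁ : ℝ) ≤ r₂ := by exact_mod_cast h4
  have h5' : (r₂ : ℝ) ≤ r₁ + 1 := by exact_mod_cast h5
  have ha0 : (1 : ℝ) ≤ a := by exact_mod_cast ha
  set M : ℝ := n - 2 * a + 1 with hM
  have hM1 : 0.98 * (n : ℝ) ≤ M := by rw [hM]; linarith
  have hprod : M ^ 2 - 1 ≤ 4 * (((r₂ : ℝ) + 1) * (r₁ + 1)) := by
    have h : M = (r₁ + 1) + (r₂ + 1) := by rw [hM]; linarith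
    rw [h]
    nlinarith [mul_nonneg (sub_nonneg.2 h4') (sub_nonneg.2 h5')]
  have hMpos : 0 < M := by linarith
  -- multiply
  have hX : (n : ℝ) * (M * (M ^ 2 - 1)) ≤ 32 * a * s := by
    have e1 : M ≤ 2 * a * S := by rw [hM]; linarith
    have e2 : 0 ≤ M ^ 2 - 1 := by nlinarith
    have e3 : M * (M ^ 2 - 1) ≤ (2 * a * S) * (4 * (((r₂ : ℝ) + 1) * (r₁ + 1))) :=
      mul_le_mul e1 hprod e2 (by positivity)
    calc (n : ℝ) * (M * (M ^ 2 - 1)) ≤ n * ((2 * a * S) * (4 * (((r₂ : ℝ) + 1) * (r₁ + 1)))) :=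
          mul_le_mul_of_nonneg_left e3 (by positivity)
      _ = 8 * a * (n * S * ((r₂ + 1) * (r₁ + 1))) := by ring
      _ ≤ 8 * a * (4 * s) := mul_le_mul_of_nonneg_left hs' (by positivity)
      _ = 32 * a * s := by ring
  have hY : 0.941 * (n : ℝ) ^ 3 ≤ M * (M ^ 2 - 1) := by
    have e1 : (0.98 * (n : ℝ)) ^ 2 ≤ M ^ 2 := pow_le_pow_left₀ (by positivity) hM1 2
    have e2 : 0.9603 * (n : ℝ) ^ 2 ≤ M ^ 2 - 1 := by nlinarith
    calc 0.941 * (n : ℝ) ^ 3 ≤ (0.98 * (n : ℝ)) * (0.9603 * (n : ℝ) ^ 2) := by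
          have : 0 ≤ (n : ℝ) ^ 3 := by positivity
          nlinarith
      _ ≤ M * (M ^ 2 - 1) := mul_le_mul hM1 e2 (by positivity) hMpos.le
  have hs0 : (0 : ℝ) ≤ s := Nat.cast_nonneg _
  have hZ : 0.941 * (n : ℝ) ^ 4 ≤ 32 * a * s := by
    calc 0.941 * (n : ℝ) ^ 4 = n * (0.941 * (n : ℝ) ^ 3) := by ring
      _ ≤ n * (M * (M ^ 2 - 1)) := mul_le_mul_of_nonneg_left hY (by positivity)
      _ ≤ _ := hX
  have hW : 0.6931471803 * (32 * (a : ℝ) * s) ≤ 32 * (Real.log n * s) := by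
    have := mul_le_mul_of_nonneg_right ha' hs0
    linarith
  have hlogs : 0 ≤ Real.log n * s := mul_nonneg (Real.log_nonneg (by linarith)) hs0
  nlinarith

/-- numerical consequence for determinantal representations -/
lemma numerics_det (n a r₁ r₂ S s : ℕ) (hn : 2 ^ 10 ≤ n) (h1 : n = 2 * a + r₁ + r₂ + 1)
    (h5 : r₂ ≤ r₁ + 1) (h6 : 2 ^ a ≤ n) (h7 : n + 1 ≤ 2 * a * S + 2 * a)
    (h8 : 50 * (2 * a) ≤ n + 50) (ha : 1 ≤ a)
    (hs : n * S * (r₁ + 1) ≤ s) :
    (n : ℝ) ^ 3 ≤ 7 * Real.log n * s := by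
  have hn' : (1024 : ℝ) ≤ n := by exact_mod_cast hn
  have hlog : (a : ℝ) * Real.log 2 ≤ Real.log n := by
    rw [← Real.log_pow]
    apply Real.log_le_log (by positivity)
    exact_mod_cast h6
  have hl2 : (0.6931471803 : ℝ) < Real.log 2 := Real.log_two_gt_d9
  have ha' : (a : ℝ) * 0.6931471803 ≤ Real.log n := by
    refine le_trans ?_ hlog
    exact mul_le_mul_of_nonneg_left hl2.le (Nat.cast_nonneg _)
  have hs' : (n : ℝ) * S * (r₁ + 1) ≤ s := by exact_mod_cast hs
  have h7' : (n : ℝ) + 1 ≤ 2 * a * S + 2 * a := by exact_mod_cast h7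
  have h8' : 50 * (2 * (a : ℝ)) ≤ n + 50 := by exact_mod_cast h8
  have h1' : (n : ℝ) = 2 * a + r₁ + r₂ + 1 := by exact_mod_cast h1
  have h5' : (r₂ : ℝ) ≤ r₁ + 1 := by exact_mod_cast h5
  have ha0 : (1 : ℝ) ≤ a := by exact_mod_cast ha
  set M : ℝ := n - 2 * a + 1 with hM
  have hM1 : 0.98 * (n : ℝ) ≤ M := by rw [hM]; linarith
  have hMpos : 0 < M := by linarith
  have hr : M - 1 ≤ 2 * ((r₁ : ℝ) + 1) := by rw [hM]; linarith
  have hX : (n : ℝ) * (M * (M - 1)) ≤ 4 * a * s := by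
    have e1 : M ≤ 2 * a * S := by rw [hM]; linarith
    have e3 : M * (M - 1) ≤ (2 * a * S) * (2 * ((r₁ : ℝ) + 1)) :=
      mul_le_mul e1 hr (by linarith) (by positivity)
    calc (n : ℝ) * (M * (M - 1)) ≤ n * ((2 * a * S) * (2 * ((r₁ : ℝ) + 1))) :=
          mul_le_mul_of_nonneg_left e3 (by positivity)
      _ = 4 * a * (n * S * (r₁ + 1)) := by ring
      _ ≤ 4 * a * s := mul_le_mul_of_nonneg_left hs' (by positivity)
  have hY : 0.959 * (n : ℝ) ^ 2 ≤ M * (M - 1) := by nlinarith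
  have hs0 : (0 : ℝ) ≤ s := Nat.cast_nonneg _
  have hZ : 0.959 * (n : ℝ) ^ 3 ≤ 4 * a * s := by
    calc 0.959 * (n : ℝ) ^ 3 = n * (0.959 * (n : ℝ) ^ 2) := by ring
      _ ≤ n * (M * (M - 1)) := mul_le_mul_of_nonneg_left hY (by positivity)
      _ ≤ _ := hX
  have hW : 0.6931471803 * (4 * (a : ℝ) * s) ≤ 4 * (Real.log n * s) := by
    have := mul_le_mul_of_nonneg_right ha' hs0
    linarith
  have hlogs : 0 ≤ Real.log n * s := mul_nonneg (Real.log_nonneg (by linarith)) hs0
  nlinarith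

/-! ### The theorems -/

/-- what holds for a polynomial whose derivatives are independent at all special points -/
theorem bounds_of_good {K : Type*} [Field K] (n : ℕ) (hn : 2 ^ 10 ≤ n)
    (g : MvPolynomial (Fin n × Fin n) K)
    (hg : ∀ a r₁ r₂, r₁ + 1 ≤ 2 ^ a → r₂ + 1 ≤ 2 ^ a → Good a r₁ r₂ n g) (hg0 : g ≠ 0) :
    (∀ F : RFml (Fin n × Fin n) K, F.val = algebraMap _ _ g →
      (n : ℝ) ^ 4 ≤ 50 * Real.log n * F.size) ∧
    (∀ (m : ℕ) (M : Matrix (Fin m) (Fin m) (MvPolynomial (Fin n × Fin n) K)),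
      (∀ i j, (M i j).totalDegree ≤ 1) → M.det = g →
      (n : ℝ) ^ 3 ≤ 7 * Real.log n * (∑ i, ∑ j, (M i j).vars.card : ℕ)) := by
  obtain ⟨a, r₁, r₂, S, h1, h2, h3, h4, h5, h6, h7, h8, h9, h10, h11⟩ := exists_params n hn
  refine ⟨fun F hF => ?_, fun m M hM hdet => ?_⟩
  · refine numerics_formula n a r₁ r₂ S F.size hn h1 h6 h7 h8 h9 h10 h11 ?_
    exact formula_of_good h1 h2 (by nlinarith) g (hg a r₁ r₂ h3 h4) F hF
  · refine numerics_det n a r₁ r₂ S _ hn h1 h7 h8 h9 h10 h11 ?_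
    exact det_of_good' h1 h2 (by omega) h6 g (hg a r₁ r₂ h3 h4) hg0 M hM hdet

lemma permN_ne_zero (n : ℕ) (K : Type*) [Field K] [CharZero K] : permN n K ≠ 0 := by
  intro h
  have h1 := congrArg (eval (1 : Fin n × Fin n → K)) h
  simp only [permN, map_sum, map_prod, eval_X, Pi.one_apply, Finset.prod_const_one,
    Finset.sum_const, nsmul_eq_mul, mul_one, map_zero] at h1
  rw [Finset.card_univ, Fintype.card_perm, Fintype.card_fin] at h1
  exact (Nat.cast_ne_zero.2 (Nat.factorial_ne_zero n)) h1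

/-- exact version -/
theorem bounds_perm {K : Type*} [Field K] [CharZero K] (n : ℕ) (hn : 2 ^ 10 ≤ n) :
    (∀ F : RFml (Fin n × Fin n) K, F.val = algebraMap _ _ (permN n K) →
      (n : ℝ) ^ 4 ≤ 50 * Real.log n * F.size) ∧
    (∀ (m : ℕ) (M : Matrix (Fin m) (Fin m) (MvPolynomial (Fin n × Fin n) K)),
      (∀ i j, (M i j).totalDegree ≤ 1) → M.det = permN n K →
      (n : ℝ) ^ 3 ≤ 7 * Real.log n * (∑ i, ∑ j, (M i j).vars.card : ℕ)) :=
  bounds_of_good n hn (permN n K)
    (fun a r₁ r₂ h₁ h₂ => good_perm indep block a r₁ r₂ n h₁ h₂) (permN_ne_zero n K)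

/-- version over `k(ε)` -/
theorem bounds_ratFunc {k : Type*} [Field k] [CharZero k] (n : ℕ) (hn : 2 ^ 10 ≤ n)
    (g : MvPolynomial (Fin n × Fin n) (RatFunc k))
    (hg : ∀ d, (coeff d g).denom.eval 0 ≠ 0 ∧
      (coeff d g).eval (RingHom.id k) 0 = coeff d (permN n k)) :
    (∀ F : RFml (Fin n × Fin n) (RatFunc k), F.val = algebraMap _ _ g →
      (n : ℝ) ^ 4 ≤ 50 * Real.log n * F.size) ∧
    (∀ (m : ℕ) (M : Matrix (Fin m) (Fin m) (MvPolynomial (Fin n × Fin n) (RatFunc k))),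
      (∀ i j, (M i j).totalDegree ≤ 1) → M.det = g →
      (n : ℝ) ^ 3 ≤ 7 * Real.log n * (∑ i, ∑ j, (M i j).vars.card : ℕ)) := by
  obtain ⟨f, hf⟩ := H1DC.exists_lift (H1DC.localAtZero k).subtype g
    (fun d => ⟨⟨_, (hg d).1⟩, rfl⟩)
  have hf2 : MvPolynomial.map (H1DC.evalZero k) f = permN n k := by
    ext d
    rw [MvPolynomial.coeff_map, ← (hg d).2, ← hf, MvPolynomial.coeff_map]
    rfl
  have hsurj : Function.Surjective (H1DC.evalZero k) := by
    intro c
    refine ⟨⟨RatFunc.C c, ?_⟩, ?_⟩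
    · rw [H1DC.mem_localAtZero, RatFunc.denom_C]
      simp
    · show RatFunc.eval (RingHom.id k) 0 (RatFunc.C c) = c
      simp
  have hne : g ≠ 0 := by
    rintro rfl
    apply permN_ne_zero n k
    ext d
    rw [← (hg d).2]
    simp
  refine bounds_of_good n hn g (fun a r₁ r₂ h₁ h₂ => ?_) hne
  rw [← hf]
  exact good_of indep block (H1DC.evalZero k) hsurj (H1DC.localAtZero k).subtype
    (Subring.subtype_injective _) a r₁ r₂ n h₁ h₂ f hf2

/-- limits over `ℂ` -/
theorem bounds_limit (n : ℕ) (hn : 2 ^ 10 ≤ n) (s : ℕ) (g : ℕ → MvPolynomial (Fin n × Fin n) ℂ)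
    (hlim : ∀ d, Tendsto (fun t => coeff d (g t)) atTop (𝓝 (coeff d (permN n ℂ)))) :
    ((∀ t, ∃ F : RFml (Fin n × Fin n) ℂ, F.val = algebraMap _ _ (g t) ∧ F.size ≤ s) →
      (n : ℝ) ^ 4 ≤ 50 * Real.log n * s) ∧
    ((∀ t, ∃ (m : ℕ) (M : Matrix (Fin m) (Fin m) (MvPolynomial (Fin n × Fin n) ℂ)),
      (∀ i j, (M i j).totalDegree ≤ 1) ∧ M.det = g t ∧ ∑ i, ∑ j, (M i j).vars.card ≤ s) →
      (n : ℝ) ^ 3 ≤ 7 * Real.log n * s) := by
  obtain ⟨a, r₁, r₂, S, h1, h2, h3, h4, h5, h6, h7, h8, h9, h10, h11⟩ := exists_params n hn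
  have hev : ∀ (hdeg : ∀ t, (g t).totalDegree ≤ s), ∃ t, Good a r₁ r₂ n (g t) ∧ g t ≠ 0 := by
    intro hdeg
    have e1 := good_eventually indep block a r₁ r₂ n h3 h4 s g hdeg hlim
    have e2 : ∀ᶠ t in atTop, g t ≠ 0 := by
      obtain ⟨d, hd⟩ := MvPolynomial.ne_zero_iff.1 (permN_ne_zero n ℂ)
      filter_upwards [(hlim d).eventually_ne hd] with t ht h
      exact ht (by rw [h, coeff_zero])
    exact (e1.and e2).exists
  refine ⟨fun h => ?_, fun h => ?_⟩
  · choose F hF hs using h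
    obtain ⟨t, ht, _⟩ := hev (fun t => ((F t).totalDegree_le _ (hF t)).trans (hs t))
    refine numerics_formula n a r₁ r₂ S s hn h1 h6 h7 h8 h9 h10 h11 ?_
    exact (formula_of_good h1 h2 (by nlinarith) (g t) ht (F t) (hF t)).trans
      (Nat.mul_le_mul_left _ (hs t))
  · choose m M hM hdet hs using h
    obtain ⟨t, ht, ht0⟩ := hev (fun t => by
      rw [← hdet t]
      exact (totalDegree_det_le (M t) (hM t)).trans (hs t))
    refine numerics_det n a r₁ r₂ S s hn h1 h7 h8 h9 h10 h11 ?_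
    exact (det_of_good' h1 h2 (by omega) h6 (g t) ht ht0 (M t) (hM t) (hdet t)).trans (hs t)

end H1FS
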