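import Pool.Agent.Helper1x.FS.DetOcc
import Pool.Agent.Helper1x.FS.Count

/-!
# Formula size and determinantal representations of the permanent: combination
-/

namespace H1FS

open MvPolynomial H1CL Filter Topology

universe u

/-- the permanent polynomial -/
noncomputable def permN (n : ℕ) (R : Type*) [CommRing R] : MvPolynomial (Fin n × Fin n) R :=
  ∑ σ : Equiv.Perm (Fin n), ∏ i, X (i, σ i)

lemma map_permN {R S : Type*} [CommRing R] [CommRing S] (f : R →+* S) (n : ℕ) :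
    MvPolynomial.map f (permN n R) = permN n S := by
  unfold permN
  simp only [map_sum, map_prod, map_X]

lemma map_permRC {r c : Type} [Fintype r] [DecidableEq r] [Fintype c] [DecidableEq c]
    {R S : Type*} [CommRing R] [CommRing S] (f : R →+* S) :
    MvPolynomial.map f (permRC r c R) = permRC r c S := by
  unfold permRC
  simp only [map_sum, map_prod, map_X]

lemma rename_permN {r c : Type} [Fintype r] [DecidableEq r] [Fintype c] [DecidableEq c]
    {R : Type u} [CommRing R] {n : ℕ} (ρ : Fin n ≃ r) (γ : Fin n ≃ c) :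
    rename (Equiv.prodCongr ρ γ) (permN n R) = permRC r c R := by
  unfold permN permRC
  simp only [map_sum, map_prod, rename_X]
  refine Fintype.sum_equiv ((ρ.symm.equivCongr γ.symm).symm) _ _ (fun σ => ?_)
  refine Fintype.prod_equiv ρ _ _ (fun i => ?_)
  simp [Equiv.equivCongr]

/-- positions of the derivatives -/
def wpos (a r₁ r₂ : ℕ) (ij : Fin (r₂ + 1) × Fin (r₁ + 1)) : Rw a r₁ r₂ × Cl a r₁ r₂ :=
  (Sum.inr (Sum.inr ij.1), Sum.inl (Sum.inr ij.2))

lemma wpos_notMem (a r₁ r₂ : ℕ) (ij : Fin (r₂ + 1) × Fin (r₁ + 1)) :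
    wpos a r₁ r₂ ij ∉ blk a r₁ r₂ := by
  intro hi
  rw [blk, Finset.mem_map] at hi
  obtain ⟨t, _, ht⟩ := hi
  rcases t with t | t <;>
  · have := (Prod.ext_iff.1 ht).1
    simp [spec, wpos] at this

/-- linear independence of the derivatives of the permanent -/
theorem perm_li_rat (hind : StmInd) (hblk : StmBlock) (a r₁ r₂ : ℕ) (h₁ : r₁ + 1 ≤ 2 ^ a)
    (h₂ : r₂ + 1 ≤ 2 ^ a) :
    LinearIndependent ℚ (fun (ij : Fin (r₂ + 1) × Fin (r₁ + 1))
      (U : Finset (Fin a) × Finset (Fin a)) =>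
      eval (ptsR a r₁ r₂ ℚ U) (pderiv (wpos a r₁ r₂ ij)
        (permRC (Rw a r₁ r₂) (Cl a r₁ r₂) ℚ))) := by
  have h1 : (fun (ij : Fin (r₂ + 1) × Fin (r₁ + 1)) (U : Finset (Fin a) × Finset (Fin a)) =>
      eval (ptsR a r₁ r₂ ℚ U) (pderiv (wpos a r₁ r₂ ij)
        (permRC (Rw a r₁ r₂) (Cl a r₁ r₂) ℚ))) = fun (v : Fin (r₂ + 1) × Fin (r₁ + 1))
      (x : Finset (Fin a) × Finset (Fin a)) =>
        Pj a r₁ (ind a ℚ x.1) v.2 * Pj a r₂ (ind a ℚ x.2) v.1 := by
    funext v x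
    rw [wpos, eval_pderiv_permRC, ← hblk ℚ a r₁ r₂ (ind a ℚ x.1) (ind a ℚ x.2) v.1 v.2]
    rfl
  rw [h1]
  exact li_prod (fun j U => Pj a r₁ (ind a ℚ U) j) (fun i U => Pj a r₂ (ind a ℚ U) i)
    (hind ℚ a r₁ h₁) (hind ℚ a r₂ h₂)

/-- linear independence over any field of characteristic zero -/
theorem perm_li (hind : StmInd) (hblk : StmBlock) (κ : Type u) [Field κ] [CharZero κ]
    (a r₁ r₂ : ℕ) (h₁ : r₁ + 1 ≤ 2 ^ a) (h₂ : r₂ + 1 ≤ 2 ^ a) :
    LinearIndependent κ (fun (ij : Fin (r₂ + 1) × Fin (r₁ + 1))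
      (U : Finset (Fin a) × Finset (Fin a)) =>
      eval (ptsR a r₁ r₂ κ U) (pderiv (wpos a r₁ r₂ ij)
        (permRC (Rw a r₁ r₂) (Cl a r₁ r₂) κ))) := by
  have h1 := transfer (RingHom.id ℚ) Function.surjective_id (algebraMap ℚ κ)
    (algebraMap ℚ κ).injective _ (perm_li_rat hind hblk a r₁ r₂ h₁ h₂)
  have h2 : (fun (ij : Fin (r₂ + 1) × Fin (r₁ + 1))
      (U : Finset (Fin a) × Finset (Fin a)) =>
      eval (ptsR a r₁ r₂ κ U) (pderiv (wpos a r₁ r₂ ij)
        (permRC (Rw a r₁ r₂) (Cl a r₁ r₂) κ))) = fun v x => (algebraMap ℚ κ)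
        (eval (ptsR a r₁ r₂ ℚ x) (pderiv (wpos a r₁ r₂ v)
        (permRC (Rw a r₁ r₂) (Cl a r₁ r₂) ℚ))) := by
    funext v x
    rw [← map_permRC (algebraMap ℚ κ), pderiv_map, ← eval_map_comp]
    congr 2
    funext w
    exact (map_ptsR a r₁ r₂ (algebraMap ℚ κ) x w).symm
  rw [h2]
  exact h1

/-- the derivatives of `g` at the special points are linearly independent for every
rearrangement of rows and columns -/
def Good {K : Type*} [Field K] (a r₁ r₂ n : ℕ) (g : MvPolynomial (Fin n × Fin n) K) : Prop :=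
  ∀ (ρ : Fin n ≃ Rw a r₁ r₂) (γ : Fin n ≃ Cl a r₁ r₂),
    LinearIndependent K (fun (ij : Fin (r₂ + 1) × Fin (r₁ + 1))
      (U : Finset (Fin a) × Finset (Fin a)) =>
      eval (ptsR a r₁ r₂ K U) (pderiv (wpos a r₁ r₂ ij) (rename (Equiv.prodCongr ρ γ) g)))

theorem good_of (hind : StmInd) (hblk : StmBlock) {R κ K : Type*} [CommRing R] [Field κ]
    [CharZero κ] [Field K] (φ : R →+* κ) (hφ : Function.Surjective φ) (ι : R →+* K)
    (hι : Function.Injective ι) (a r₁ r₂ n : ℕ) (h₁ : r₁ + 1 ≤ 2 ^ a) (h₂ : r₂ + 1 ≤ 2 ^ a)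
    (f : MvPolynomial (Fin n × Fin n) R) (hf : MvPolynomial.map φ f = permN n κ) :
    Good a r₁ r₂ n (MvPolynomial.map ι f) := by
  intro ρ γ
  have h1 := transfer φ hφ ι hι
    (fun (ij : Fin (r₂ + 1) × Fin (r₁ + 1)) (U : Finset (Fin a) × Finset (Fin a)) =>
      eval (ptsR a r₁ r₂ R U) (pderiv (wpos a r₁ r₂ ij) (rename (Equiv.prodCongr ρ γ) f))) (by
      have h2 : (fun (v : Fin (r₂ + 1) × Fin (r₁ + 1)) (x : Finset (Fin a) × Finset (Fin a)) =>
          φ (eval (ptsR a r₁ r₂ R x) (pderiv (wpos a r₁ r₂ v)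
            (rename (Equiv.prodCongr ρ γ) f)))) = fun v x =>
          eval (ptsR a r₁ r₂ κ x) (pderiv (wpos a r₁ r₂ v)
            (permRC (Rw a r₁ r₂) (Cl a r₁ r₂) κ)) := by
        funext v x
        rw [← rename_permN ρ γ, ← hf, ← map_rename, pderiv_map, ← eval_map_comp]
        congr 2
        funext w
        exact map_ptsR a r₁ r₂ φ x w
      rw [h2]
      exact perm_li hind hblk κ a r₁ r₂ h₁ h₂)
  have h3 : (fun (ij : Fin (r₂ + 1) × Fin (r₁ + 1)) (U : Finset (Fin a) × Finset (Fin a)) =>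
      eval (ptsR a r₁ r₂ K U) (pderiv (wpos a r₁ r₂ ij)
        (rename (Equiv.prodCongr ρ γ) (MvPolynomial.map ι f)))) = fun v x =>
      ι (eval (ptsR a r₁ r₂ R x) (pderiv (wpos a r₁ r₂ v)
        (rename (Equiv.prodCongr ρ γ) f))) := by
    funext v x
    rw [← map_rename, pderiv_map, ← eval_map_comp]
    congr 2
    funext w
    exact (map_ptsR a r₁ r₂ ι x w).symm
  rw [h3]
  exact h1

/-- exact version -/
theorem good_perm (hind : StmInd) (hblk : StmBlock) {K : Type*} [Field K]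
    [CharZero K] (a r₁ r₂ n : ℕ) (h₁ : r₁ + 1 ≤ 2 ^ a) (h₂ : r₂ + 1 ≤ 2 ^ a) :
    Good a r₁ r₂ n (permN n K) := by
  have h1 := good_of hind hblk (RingHom.id K) Function.surjective_id (RingHom.id K)
    Function.injective_id a r₁ r₂ n h₁ h₂ (permN n K) (map_permN _ _)
  rwa [map_permN] at h1

lemma spec_eq (a r₁ r₂ : ℕ) (t : Fin a ⊕ Fin a) :
    spec a r₁ r₂ t = (specRow a r₁ r₂ t, specCol a r₁ r₂ t) := by
  rcases t with t | t <;> rfl

lemma sum_blk {a r₁ r₂ n : ℕ} (ρ : Fin n ≃ Rw a r₁ r₂) (γ : Fin n ≃ Cl a r₁ r₂)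
    (g : Fin n × Fin n → ℕ) :
    ∑ v ∈ blk a r₁ r₂, g ((Equiv.prodCongr ρ γ).symm v) =
      ∑ t : Fin a ⊕ Fin a, g (ρ.symm (specRow a r₁ r₂ t), γ.symm (specCol a r₁ r₂ t)) := by
  rw [blk, Finset.sum_map]
  refine Finset.sum_congr rfl (fun t _ => ?_)
  show g ((Equiv.prodCongr ρ γ).symm (spec a r₁ r₂ t)) = _
  rw [spec_eq]
  rfl

/-- formulas with division -/
theorem formula_of_good {K : Type*} [Field K] {a r₁ r₂ n S : ℕ}
    (hn : n = 2 * a + r₁ + r₂ + 1) (hS : 2 * a * S ≤ n) (hW : 2 ≤ (r₂ + 1) * (r₁ + 1))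
    (g : MvPolynomial (Fin n × Fin n) K) (hg : Good a r₁ r₂ n g)
    (F : RFml (Fin n × Fin n) K) (hF : F.val = algebraMap _ _ g) :
    n * S * ((r₂ + 1) * (r₁ + 1)) ≤ 4 * F.size := by
  rw [← F.sum_occ]
  refine count a r₁ r₂ n S _ 4 hn hS F.occ (fun ρ γ => ?_)
  have h1 := card_le_occ_r (ptsR a r₁ r₂ K) (blk a r₁ r₂)
    (fun v hv x x' => ptsR_outside a r₁ r₂ v hv x x') (F.rename (Equiv.prodCongr ρ γ))
    (rename (Equiv.prodCongr ρ γ) g) (by
      rw [RFml.val_rename, hF, frMap_algebraMap]; rfl) (wpos a r₁ r₂)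
    (wpos_notMem a r₁ r₂) (hg ρ γ) (by simpa using hW)
  rw [← sum_blk]
  have h2 : ∀ v, (F.rename (Equiv.prodCongr ρ γ)).occ v = F.occ ((Equiv.prodCongr ρ γ).symm v) := by
    intro v
    rw [← RFml.occ_rename (Equiv.prodCongr ρ γ) F, Equiv.apply_symm_apply]
  simp only [h2] at h1
  simpa using h1

/-- determinantal representations -/
theorem det_of_good {K : Type*} [Field K] {a r₁ r₂ n S : ℕ}
    (hn : n = 2 * a + r₁ + r₂ + 1) (hS : 2 * a * S ≤ n) (hr : 1 ≤ r₁) (hrr : r₁ ≤ r₂)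
    (g : MvPolynomial (Fin n × Fin n) K) (hg : Good a r₁ r₂ n g) (hg0 : g ≠ 0)
    {m : Type*} [Fintype m] [DecidableEq m] (c : m → m → K) (A : m → m → Fin n × Fin n → K)
    (hM : (affM c A).det = g) (N : ℕ)
    (occ : Fin n × Fin n → ℕ) (hocc : ∀ v, ∃ E : Finset (m × m), E.card ≤ occ v ∧
      ∀ i j, (i, j) ∉ E → A i j v = 0) (hN : ∑ v, occ v ≤ N) :
    n * S * (r₁ + 1) ≤ N := by
  classical
  choose E hE hE' using hocc
  have key : n * S * (r₁ + 1) ≤ 1 * ∑ v, occ v := by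
    refine count a r₁ r₂ n S _ 1 hn hS occ (fun ρ γ => ?_)
    let e := Equiv.prodCongr ρ γ
    let A' : m → m → Rw a r₁ r₂ × Cl a r₁ r₂ → K := fun i j v => A i j (e.symm v)
    let E' : Finset (m × m) := (blk a r₁ r₂).biUnion (fun v => E (e.symm v))
    have h0 : (affM c A').det = rename e g := by
      rw [← hM, AlgHom.map_det]
      congr 1
      ext1 i j
      simp only [AlgHom.mapMatrix_apply, Matrix.map_apply, affM, Matrix.of_apply, map_add,
        map_sum, map_mul, rename_C, rename_X]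
      congr 1
      refine (Fintype.sum_equiv e _ _ (fun v => ?_)).symm
      simp [A']
    have h1 := card_le_det (ptsR a r₁ r₂ K) (blk a r₁ r₂)
      (fun v hv x x' => ptsR_outside a r₁ r₂ v hv x x') c A' (by
        rw [h0]
        intro h
        exact hg0 (rename_injective e e.injective (by rw [h, map_zero])))
      (wpos a r₁ r₂) (by rw [h0]; exact hg ρ γ) E' (by
        intro i j hij v hv
        refine hE' (e.symm v) i j (fun h => hij ?_)
        exact Finset.mem_biUnion.2 ⟨v, hv, h⟩)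
    have h2 : E'.card ≤ ∑ v ∈ blk a r₁ r₂, occ (e.symm v) :=
      Finset.card_biUnion_le.trans (Finset.sum_le_sum (fun v _ => hE _))
    rw [one_mul, ← sum_blk]
    refine le_trans ?_ h2
    simp only [Fintype.card_prod, Fintype.card_fin] at h1
    by_contra hcon
    push Not at hcon
    have h3 : E'.card ≤ r₁ := by omega
    have h4 : E'.card ^ 2 ≤ r₁ ^ 2 := Nat.pow_le_pow_left h3 2
    nlinarith [Nat.mul_le_mul hrr (le_refl (r₁ + 1))]
  rw [one_mul] at key
  exact key.trans hN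

/-! ### Limits -/

section limit

variable {σ : Type*} [Fintype σ] [DecidableEq σ]

lemma sum_Iic {K : Type*} [CommRing K] (D : ℕ) (p : MvPolynomial σ K) (hp : p.totalDegree ≤ D) :
    p = ∑ d ∈ Finset.Iic (Finsupp.equivFunOnFinite.symm (fun _ : σ => D)),
      monomial d (coeff d p) := by
  classical
  conv_lhs => rw [p.as_sum]
  refine Finset.sum_subset ?_ ?_
  · intro d hd
    rw [Finset.mem_Iic]
    intro v
    have h1 : d.sum (fun _ e => e) ≤ p.totalDegree := le_totalDegree hd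
    have h2 : d v ≤ d.sum (fun _ e => e) := by
      rw [Finsupp.sum_fintype _ _ (fun _ => rfl)]
      exact Finset.single_le_sum (f := fun v => d v) (fun _ _ => Nat.zero_le _) (Finset.mem_univ v)
    exact h2.trans (h1.trans hp)
  · intro d _ hd
    rw [notMem_support_iff.1 hd, monomial_zero]

lemma tendsto_linear (Λ : MvPolynomial σ ℂ →ₗ[ℂ] ℂ) (D : ℕ) (g : ℕ → MvPolynomial σ ℂ)
    (f : MvPolynomial σ ℂ) (hD : ∀ t, (g t).totalDegree ≤ D)
    (hlim : ∀ d, Tendsto (fun t => coeff d (g t)) atTop (𝓝 (coeff d f))) :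
    Tendsto (fun t => Λ (g t)) atTop (𝓝 (Λ f)) := by
  have h0 : ∀ (p : MvPolynomial σ ℂ) (D : ℕ), p.totalDegree ≤ D →
      Λ p = ∑ d ∈ Finset.Iic (Finsupp.equivFunOnFinite.symm (fun _ : σ => D)),
        coeff d p * Λ (monomial d 1) := by
    intro p D hp
    conv_lhs => rw [sum_Iic D p hp]
    rw [map_sum]
    refine Finset.sum_congr rfl (fun d _ => ?_)
    have : monomial d (coeff d p) = coeff d p • (monomial d (1 : ℂ)) := by
      rw [smul_monomial, smul_eq_mul, mul_one]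
    rw [this, map_smul, smul_eq_mul]
  have h1 : ∀ t, Λ (g t) = ∑ d ∈ Finset.Iic (Finsupp.equivFunOnFinite.symm
      (fun _ : σ => max D f.totalDegree)), coeff d (g t) * Λ (monomial d 1) :=
    fun t => h0 _ _ ((hD t).trans (le_max_left _ _))
  rw [h0 f (max D f.totalDegree) (le_max_right _ _)]
  simp only [h1]
  exact tendsto_finsetSum _ (fun d _ => (hlim d).mul_const _)

end limit

theorem good_eventually (hind : StmInd) (hblk : StmBlock) (a r₁ r₂ n : ℕ)
    (h₁ : r₁ + 1 ≤ 2 ^ a) (h₂ : r₂ + 1 ≤ 2 ^ a) (D : ℕ)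
    (g : ℕ → MvPolynomial (Fin n × Fin n) ℂ) (hD : ∀ t, (g t).totalDegree ≤ D)
    (hlim : ∀ d, Tendsto (fun t => coeff d (g t)) atTop (𝓝 (coeff d (permN n ℂ)))) :
    ∀ᶠ t in atTop, Good a r₁ r₂ n (g t) := by
  unfold Good
  rw [Filter.eventually_all]
  intro ρ
  rw [Filter.eventually_all]
  intro γ
  let Λ : (Fin (r₂ + 1) × Fin (r₁ + 1)) → (Finset (Fin a) × Finset (Fin a)) →
      MvPolynomial (Fin n × Fin n) ℂ →ₗ[ℂ] ℂ := fun ij U =>
    (aeval (ptsR a r₁ r₂ ℂ U) : MvPolynomial _ ℂ →ₐ[ℂ] ℂ).toLinearMap ∘ₗ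
      (pderiv (wpos a r₁ r₂ ij) : Derivation ℂ (MvPolynomial _ ℂ) (MvPolynomial _ ℂ)).toLinearMap ∘ₗ
        (rename (Equiv.prodCongr ρ γ) : MvPolynomial _ ℂ →ₐ[ℂ] MvPolynomial _ ℂ).toLinearMap
  have hΛ : ∀ (p : MvPolynomial (Fin n × Fin n) ℂ), (fun (ij : Fin (r₂ + 1) × Fin (r₁ + 1))
      (U : Finset (Fin a) × Finset (Fin a)) =>
      eval (ptsR a r₁ r₂ ℂ U) (pderiv (wpos a r₁ r₂ ij) (rename (Equiv.prodCongr ρ γ) p)))
      = fun ij U => Λ ij U p := by
    intro p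
    funext ij U
    simp only [Λ, LinearMap.comp_apply, AlgHom.toLinearMap_apply]
    rfl
  simp only [hΛ]
  have hperm := good_perm hind hblk (K := ℂ) a r₁ r₂ n h₁ h₂ ρ γ
  rw [hΛ] at hperm
  obtain ⟨G, hG⟩ := exists_left_inv (Matrix.of fun ij U => Λ ij U (permN n ℂ)) hperm
  have hA : Tendsto (fun t => (Matrix.of fun ij U => Λ ij U (g t) :
      Matrix (Fin (r₂ + 1) × Fin (r₁ + 1)) (Finset (Fin a) × Finset (Fin a)) ℂ)) atTop
      (𝓝 (Matrix.of fun ij U => Λ ij U (permN n ℂ))) := by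
    refine tendsto_pi_nhds.2 (fun ij => tendsto_pi_nhds.2 (fun U => ?_))
    exact tendsto_linear (Λ ij U) D g (permN n ℂ) hD hlim
  have hcont : Continuous (fun A : Matrix (Fin (r₂ + 1) × Fin (r₁ + 1))
      (Finset (Fin a) × Finset (Fin a)) ℂ => (G * A.transpose).det) :=
    (continuous_const.matrix_mul continuous_id.matrix_transpose).matrix_det
  have hdet := (hcont.tendsto _).comp hA
  simp only [hG, Matrix.det_one] at hdet
  have hne : ∀ᶠ t in atTop, (G * (Matrix.of fun ij U => Λ ij U (g t) :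
      Matrix (Fin (r₂ + 1) × Fin (r₁ + 1)) (Finset (Fin a) × Finset (Fin a)) ℂ).transpose).det ≠ 0 :=
    hdet.eventually_ne one_ne_zero
  filter_upwards [hne] with t ht
  exact li_of_det (Matrix.of fun ij U => Λ ij U (g t)) G ht

end H1FS
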