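import Pool.Agent.Helper1x.FS.Formula
import Pool.Agent.Helper1x.FS.Core

/-!
# Arithmetic formulas with division gates and Kalorkoti's rank bound

`RFml σ K` is the type of arithmetic formulas with leaves labelled by variables `v : σ` or
constants of `K` and binary gates `+`, `×`, `÷`.  `F.val` is the rational function computed by
`F` (with `f / 0 = 0`) and `F.occ v` the number of leaves labelled `v`.
-/

namespace H1FS

open MvPolynomial

/-! ### Extension of derivations to the field of fractions -/

section deriv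

set_option linter.unusedSectionVars false

variable {A L : Type*} [CommRing A] [IsDomain A] [Field L] [Algebra A L] [IsFractionRing A L]

/-- the ring homomorphism to the dual numbers given by a derivation -/
noncomputable def dual0 {k : Type*} [CommRing k] [Algebra k A] (L : Type*) [Field L] [Algebra A L]
    (d : Derivation k A A) : A →+* TrivSqZeroExt L L where
  toFun p := (algebraMap A L p, algebraMap A L (d p))
  map_one' := by
    refine Prod.ext ?_ ?_
    · exact map_one _
    · show algebraMap A L (d 1) = 0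
      simp
  map_zero' := by
    refine Prod.ext ?_ ?_
    · exact map_zero _
    · show algebraMap A L (d 0) = 0
      simp
  map_add' := by
    intro p q
    refine Prod.ext ?_ ?_
    · exact map_add _ _ _
    · show algebraMap A L (d (p + q)) = algebraMap A L (d p) + algebraMap A L (d q)
      simp
  map_mul' := by
    intro p q
    refine Prod.ext ?_ ?_
    · exact map_mul _ _ _
    · show algebraMap A L (d (p * q)) = algebraMap A L p * algebraMap A L (d q) +
        algebraMap A L (d p) * algebraMap A L q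
      rw [d.leibniz, map_add, smul_eq_mul, smul_eq_mul, map_mul, map_mul]
      ring

lemma fst_dual0 {k : Type*} [CommRing k] [Algebra k A] (d : Derivation k A A) (p : A) :
    (dual0 L d p).fst = algebraMap A L p := rfl

lemma snd_dual0 {k : Type*} [CommRing k] [Algebra k A] (d : Derivation k A A) (p : A) :
    (dual0 L d p).snd = algebraMap A L (d p) := rfl

/-- extension to the field of fractions -/
noncomputable def dual {k : Type*} [CommRing k] [Algebra k A] (L : Type*) [Field L] [Algebra A L]
    [IsFractionRing A L] (d : Derivation k A A) : L →+* TrivSqZeroExt L L :=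
  IsLocalization.lift (M := nonZeroDivisors A) (g := dual0 L d) (by
    intro y
    rw [TrivSqZeroExt.isUnit_iff_isUnit_fst, fst_dual0]
    exact IsLocalization.map_units L y)

lemma dual_algebraMap {k : Type*} [CommRing k] [Algebra k A] (d : Derivation k A A) (p : A) :
    dual L d (algebraMap A L p) = dual0 L d p := by
  unfold dual
  rw [IsLocalization.lift_eq]

lemma fst_dual {k : Type*} [CommRing k] [Algebra k A] (d : Derivation k A A) (f : L) :
    (dual L d f).fst = f := by
  have h : ((TrivSqZeroExt.fstHom L L L : TrivSqZeroExt L L →ₐ[L] L) : TrivSqZeroExt L L →+* L).comp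
      (dual L d) = RingHom.id L := by
    apply IsLocalization.ringHom_ext (nonZeroDivisors A)
    ext p
    simp only [RingHom.comp_apply, dual_algebraMap]
    exact fst_dual0 d p
  exact congrArg (fun g : L →+* L => g f) h

/-- the extended derivation -/
noncomputable def dext {k : Type*} [CommRing k] [Algebra k A] (L : Type*) [Field L] [Algebra A L]
    [IsFractionRing A L] (d : Derivation k A A) (f : L) : L := (dual L d f).snd

variable {k : Type*} [CommRing k] [Algebra k A] (d : Derivation k A A)

lemma dext_algebraMap (p : A) : dext L d (algebraMap A L p) = algebraMap A L (d p) := by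
  unfold dext
  rw [dual_algebraMap, snd_dual0]

lemma dext_zero : dext L d 0 = 0 := by
  unfold dext
  rw [map_zero]; rfl

lemma dext_add (f g : L) : dext L d (f + g) = dext L d f + dext L d g := by
  unfold dext
  rw [map_add]; rfl

lemma dext_mul (f g : L) : dext L d (f * g) = f * dext L d g + g * dext L d f := by
  unfold dext
  rw [map_mul, TrivSqZeroExt.snd_mul, fst_dual, fst_dual]
  simp [mul_comm]

lemma dext_div (f g : L) (hg : g ≠ 0) :
    dext L d (f / g) = g⁻¹ * dext L d f - (f / g ^ 2) * dext L d g := by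
  have h := dext_mul (L := L) d (f / g) g
  rw [div_mul_cancel₀ _ hg] at h
  rw [h]
  field_simp
  ring

end deriv

/-! ### Formulas -/

/-- arithmetic formulas with division gates -/
inductive RFml (σ : Type*) (K : Type*) : Type _
  | var (v : σ) : RFml σ K
  | const (c : K) : RFml σ K
  | add (F G : RFml σ K) : RFml σ K
  | mul (F G : RFml σ K) : RFml σ K
  | div (F G : RFml σ K) : RFml σ K

/-- field of rational functions -/
abbrev Fr (σ K : Type*) [Field K] : Type _ := FractionRing (MvPolynomial σ K)

/-- rational function computed by a formula -/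
noncomputable def RFml.val {σ K : Type*} [Field K] : RFml σ K → Fr σ K
  | .var v => algebraMap _ _ (X v : MvPolynomial σ K)
  | .const c => algebraMap _ _ (C c : MvPolynomial σ K)
  | .add F G => F.val + G.val
  | .mul F G => F.val * G.val
  | .div F G => F.val / G.val

/-- number of leaves labelled by the variable `v` -/
def RFml.occ {σ K : Type*} [DecidableEq σ] : RFml σ K → σ → ℕ
  | .var w => fun v => if v = w then 1 else 0
  | .const _ => fun _ => 0
  | .add F G => fun v => F.occ v + G.occ v
  | .mul F G => fun v => F.occ v + G.occ v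
  | .div F G => fun v => F.occ v + G.occ v

/-- number of leaves labelled by variables -/
def RFml.size {σ K : Type*} : RFml σ K → ℕ
  | .var _ => 1
  | .const _ => 0
  | .add F G => F.size + G.size
  | .mul F G => F.size + G.size
  | .div F G => F.size + G.size

lemma RFml.sum_occ {σ K : Type*} [Fintype σ] [DecidableEq σ] (F : RFml σ K) :
    ∑ v, F.occ v = F.size := by
  induction F with
  | var w => simp [RFml.occ, RFml.size]
  | const c => simp [RFml.occ, RFml.size]
  | add F G hF hG => simp [RFml.occ, RFml.size, Finset.sum_add_distrib, hF, hG]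
  | mul F G hF hG => simp [RFml.occ, RFml.size, Finset.sum_add_distrib, hF, hG]
  | div F G hF hG => simp [RFml.occ, RFml.size, Finset.sum_add_distrib, hF, hG]

/-- renaming variables -/
def RFml.rename {σ τ K : Type*} (e : σ → τ) : RFml σ K → RFml τ K
  | .var v => .var (e v)
  | .const c => .const c
  | .add F G => .add (F.rename e) (G.rename e)
  | .mul F G => .mul (F.rename e) (G.rename e)
  | .div F G => .div (F.rename e) (G.rename e)

/-- map of fraction fields -/
noncomputable def frMap {σ τ K K' : Type*} [Field K] [Field K']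
    (j : MvPolynomial σ K →+* MvPolynomial τ K')
    (hj : Function.Injective j) : Fr σ K →+* Fr τ K' :=
  IsFractionRing.map hj

lemma frMap_algebraMap {σ τ K K' : Type*} [Field K] [Field K']
    (j : MvPolynomial σ K →+* MvPolynomial τ K')
    (hj : Function.Injective j) (p : MvPolynomial σ K) :
    frMap j hj (algebraMap _ (Fr σ K) p) = algebraMap _ (Fr τ K') (j p) := by
  unfold frMap IsFractionRing.map
  rw [IsLocalization.map_eq]

lemma RFml.val_rename {σ τ K : Type*} [Field K] (e : σ ≃ τ) (F : RFml σ K) :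
    (F.rename e).val = frMap (MvPolynomial.rename (R := K) e : _ →ₐ[K] _).toRingHom
      (MvPolynomial.rename_injective e e.injective) F.val := by
  induction F with
  | var v =>
    simp only [RFml.rename, RFml.val]
    rw [frMap_algebraMap]
    simp
  | const c =>
    simp only [RFml.rename, RFml.val]
    rw [frMap_algebraMap]
    simp
  | add F G hF hG => simp only [RFml.rename, RFml.val, hF, hG, map_add]
  | mul F G hF hG => simp only [RFml.rename, RFml.val, hF, hG, map_mul]
  | div F G hF hG => simp only [RFml.rename, RFml.val, hF, hG, map_div₀]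

lemma RFml.occ_rename {σ τ K : Type*} [DecidableEq σ] [DecidableEq τ] (e : σ ≃ τ)
    (F : RFml σ K) (v : σ) : (F.rename e).occ (e v) = F.occ v := by
  induction F with
  | var w => simp [RFml.rename, RFml.occ]
  | const c => simp [RFml.rename, RFml.occ]
  | add F G hF hG => simp [RFml.rename, RFml.occ, hF, hG]
  | mul F G hF hG => simp [RFml.rename, RFml.occ, hF, hG]
  | div F G hF hG => simp [RFml.rename, RFml.occ, hF, hG]

/-! ### Shifts -/

section shift

variable {σ K : Type*} [Field K]

/-- translation -/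
noncomputable def shift (y : σ → K) : MvPolynomial σ K →ₐ[K] MvPolynomial σ K :=
  aeval (fun v => X v + C (y v))

lemma shift_X (y : σ → K) (v : σ) : shift y (X v) = X v + C (y v) := by
  simp [shift]

lemma shift_C (y : σ → K) (c : K) : shift y (C c) = C c := by
  simp [shift]

lemma shift_neg (y : σ → K) (p : MvPolynomial σ K) : shift (-y) (shift y p) = p := by
  have h : (shift (-y)).comp (shift y) = AlgHom.id K (MvPolynomial σ K) := by
    apply MvPolynomial.algHom_ext
    intro v
    rw [AlgHom.comp_apply, shift_X, map_add, shift_X, shift_C]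
    simp
  exact congrArg (fun g : MvPolynomial σ K →ₐ[K] MvPolynomial σ K => g p) h

lemma shift_injective (y : σ → K) : Function.Injective (shift y : _ →ₐ[K] _).toRingHom := by
  intro p q h
  have h' : shift y p = shift y q := h
  rw [← shift_neg y p, h', shift_neg]

/-- translation of rational functions -/
noncomputable def tau (y : σ → K) : Fr σ K →+* Fr σ K :=
  frMap (shift y : _ →ₐ[K] _).toRingHom (shift_injective y)

lemma tau_algebraMap (y : σ → K) (p : MvPolynomial σ K) :
    tau y (algebraMap _ _ p) = algebraMap _ (Fr σ K) (shift y p) := by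
  unfold tau
  rw [frMap_algebraMap]
  rfl

lemma eval_zero_shift (y : σ → K) (p : MvPolynomial σ K) :
    eval (0 : σ → K) (shift y p) = eval y p := by
  have h : ((eval (0 : σ → K)).comp (shift y : _ →ₐ[K] _).toRingHom) = eval y := by
    apply MvPolynomial.ringHom_ext
    · intro c
      simp [shift]
    · intro v
      simp [shift]
  exact congrArg (fun g : MvPolynomial σ K →+* K => g p) h

end shift

section rank

set_option linter.unusedSectionVars false

variable {σ K Q : Type*} [Field K] [Fintype Q]

/-- derivation on the rational functions -/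
noncomputable def DD (v : σ) (f : Fr σ K) : Fr σ K := dext (Fr σ K) (pderiv v : Derivation K _ _) f

lemma DD_algebraMap (v : σ) (p : MvPolynomial σ K) :
    DD v (algebraMap _ _ p) = algebraMap _ (Fr σ K) (pderiv v p) := dext_algebraMap _ p

lemma DD_zero (v : σ) : DD v (0 : Fr σ K) = 0 := dext_zero _

lemma DD_add (v : σ) (f g : Fr σ K) : DD v (f + g) = DD v f + DD v g := dext_add _ f g

lemma DD_mul (v : σ) (f g : Fr σ K) : DD v (f * g) = f * DD v g + g * DD v f := dext_mul _ f g

lemma DD_div (v : σ) (f g : Fr σ K) (hg : g ≠ 0) :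
    DD v (f / g) = g⁻¹ * DD v f - (f / g ^ 2) * DD v g := dext_div _ f g hg

/-- values at the generic points `Z + pts x` -/
noncomputable def evL (pts : Q → σ → K) (f : Fr σ K) : Q → Fr σ K :=
  fun x => tau (pts x) f

lemma evL_add (pts : Q → σ → K) (f g : Fr σ K) :
    evL pts (f + g) = evL pts f + evL pts g := by
  funext x; simp [evL]

lemma evL_sub (pts : Q → σ → K) (f g : Fr σ K) :
    evL pts (f - g) = evL pts f - evL pts g := by
  funext x; simp [evL]

lemma evL_mul (pts : Q → σ → K) (f g : Fr σ K) :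
    evL pts (f * g) = evL pts f * evL pts g := by
  funext x; simp [evL]

lemma evL_div (pts : Q → σ → K) (f g : Fr σ K) :
    evL pts (f / g) = evL pts f / evL pts g := by
  funext x; simp [evL]

lemma evL_inv (pts : Q → σ → K) (f : Fr σ K) :
    evL pts (f⁻¹) = (evL pts f)⁻¹ := by
  funext x; simp [evL]

lemma evL_pow (pts : Q → σ → K) (f : Fr σ K) (j : ℕ) :
    evL pts (f ^ j) = (evL pts f) ^ j := by
  funext x; simp [evL]

lemma evL_zero (pts : Q → σ → K) : evL pts (0 : Fr σ K) = 0 := by
  funext x; simp [evL]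

lemma evL_one (pts : Q → σ → K) : evL pts (1 : Fr σ K) = 1 := by
  funext x; simp [evL]

lemma evL_apply_ne_zero (pts : Q → σ → K) {f : Fr σ K} (hf : f ≠ 0) (x : Q) :
    evL pts f x ≠ 0 := by
  intro h
  apply hf
  exact (tau (pts x)).injective (by rw [map_zero]; exact h)

lemma evL_ne_zero [Nonempty Q] (pts : Q → σ → K) {f : Fr σ K} (hf : f ≠ 0) : evL pts f ≠ 0 := by
  obtain ⟨x⟩ := ‹Nonempty Q›
  intro h
  exact evL_apply_ne_zero pts hf x (congrFun h x)

/-- the span of `1`, `f`, `f²` and the derivatives of `f` outside `B` -/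
noncomputable def UU (pts : Q → σ → K) (B : Finset σ) (f : Fr σ K) :
    Submodule (Fr σ K) (Q → Fr σ K) :=
  Submodule.span (Fr σ K) (insert 1 (insert (evL pts f) (insert (evL pts f * evL pts f)
    {g | ∃ v, v ∉ B ∧ g = evL pts (DD v f)})))

variable (pts : Q → σ → K) (B : Finset σ)

lemma one_mem_UU (f : Fr σ K) : (1 : Q → Fr σ K) ∈ UU pts B f := Submodule.subset_span (by simp)

lemma ev_mem_UU (f : Fr σ K) : evL pts f ∈ UU pts B f := Submodule.subset_span (by simp)

lemma sq_mem_UU (f : Fr σ K) : evL pts f * evL pts f ∈ UU pts B f :=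
  Submodule.subset_span (by simp)

lemma dev_mem_UU (f : Fr σ K) (v : σ) (hv : v ∉ B) : evL pts (DD v f) ∈ UU pts B f :=
  Submodule.subset_span (Set.mem_insert_of_mem _ (Set.mem_insert_of_mem _
    (Set.mem_insert_of_mem _ ⟨v, hv, rfl⟩)))

variable {pts B}

lemma UU_le {f : Fr σ K} {W : Submodule (Fr σ K) (Q → Fr σ K)}
    (h1 : (1 : Q → Fr σ K) ∈ W) (h2 : evL pts f ∈ W) (h3 : evL pts f * evL pts f ∈ W)
    (h4 : ∀ v, v ∉ B → evL pts (DD v f) ∈ W) :
    UU pts B f ≤ W := by
  refine Submodule.span_le.2 ?_
  rintro g (rfl | rfl | rfl | ⟨v, hv, rfl⟩)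
  · exact h1
  · exact h2
  · exact h3
  · exact h4 v hv

variable (pts B)

/-- rational functions that are constant on the points, with all outside derivatives -/
def Out (c : Fr σ K) : Prop :=
  (∃ a : Fr σ K, evL pts c = a • 1) ∧ ∀ v, v ∉ B → ∃ b : Fr σ K, evL pts (DD v c) = b • 1

variable {pts B}

lemma Out.zero : Out pts B (0 : Fr σ K) :=
  ⟨⟨0, by rw [evL_zero, zero_smul]⟩, fun v _ => ⟨0, by rw [DD_zero, evL_zero, zero_smul]⟩⟩

lemma Out.add {f g : Fr σ K} (hf : Out pts B f) (hg : Out pts B g) : Out pts B (f + g) := by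
  obtain ⟨⟨a, ha⟩, hf⟩ := hf
  obtain ⟨⟨b, hb⟩, hg⟩ := hg
  refine ⟨⟨a + b, by rw [evL_add, ha, hb, add_smul]⟩, fun v hv => ?_⟩
  obtain ⟨a', ha'⟩ := hf v hv
  obtain ⟨b', hb'⟩ := hg v hv
  exact ⟨a' + b', by rw [DD_add, evL_add, ha', hb', add_smul]⟩

lemma smul_one_mul_smul_one {L : Type*} [Field L] (a b : L) :
    ((a • 1 : Q → L) * (b • 1)) = (a * b) • 1 := by
  funext x; simp

lemma Out.mul {f g : Fr σ K} (hf : Out pts B f) (hg : Out pts B g) : Out pts B (f * g) := by
  obtain ⟨⟨a, ha⟩, hf⟩ := hf
  obtain ⟨⟨b, hb⟩, hg⟩ := hg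
  refine ⟨⟨a * b, by rw [evL_mul, ha, hb, smul_one_mul_smul_one]⟩, fun v hv => ?_⟩
  obtain ⟨a', ha'⟩ := hf v hv
  obtain ⟨b', hb'⟩ := hg v hv
  exact ⟨a * b' + b * a', by
    rw [DD_mul, evL_add, evL_mul, evL_mul, ha', hb', ha, hb, smul_one_mul_smul_one,
      smul_one_mul_smul_one, add_smul]⟩

lemma Out.inv {g : Fr σ K} (hg : Out pts B g) : Out pts B (1 / g) := by
  by_cases h0 : g = 0
  · rw [h0, div_zero]; exact Out.zero
  obtain ⟨⟨b, hb⟩, hg⟩ := hg
  refine ⟨⟨b⁻¹, ?_⟩, fun v hv => ?_⟩
  · rw [evL_div, evL_one, hb]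
    funext x
    simp
  · obtain ⟨b', hb'⟩ := hg v hv
    refine ⟨- (b⁻¹ * b⁻¹) * b', ?_⟩
    rw [DD_div v 1 g h0]
    have h1 : DD v (1 : Fr σ K) = 0 := by
      have h2 := DD_algebraMap v (1 : MvPolynomial σ K)
      rw [map_one] at h2
      rw [h2]
      simp
    rw [h1, mul_zero, evL_sub, evL_zero, evL_mul, evL_div, evL_one, evL_pow, hb, hb']
    funext x
    simp only [Pi.sub_apply, Pi.zero_apply, Pi.mul_apply, Pi.div_apply, Pi.one_apply,
      Pi.pow_apply, Pi.smul_apply, smul_eq_mul, mul_one]
    rw [one_div, sq, mul_inv]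
    ring

lemma Out.div {f g : Fr σ K} (hf : Out pts B f) (hg : Out pts B g) : Out pts B (f / g) := by
  rw [div_eq_mul_one_div]
  exact hf.mul hg.inv

lemma Out.mem_span {c : Fr σ K} (hc : Out pts B c) :
    UU pts B c ≤ Submodule.span (Fr σ K) {1} := by
  obtain ⟨⟨a, ha⟩, hc⟩ := hc
  refine UU_le (Submodule.mem_span_singleton_self _) ?_ ?_ ?_
  · rw [ha]; exact Submodule.smul_mem _ _ (Submodule.mem_span_singleton_self _)
  · rw [ha, smul_one_mul_smul_one]
    exact Submodule.smul_mem _ _ (Submodule.mem_span_singleton_self _)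
  · intro v hv
    obtain ⟨b, hb⟩ := hc v hv
    rw [hb]; exact Submodule.smul_mem _ _ (Submodule.mem_span_singleton_self _)

lemma UU_zero_le (f : Fr σ K) : UU pts B 0 ≤ UU pts B f := by
  refine (Out.mem_span Out.zero).trans ?_
  rw [Submodule.span_singleton_le_iff_mem]
  exact one_mem_UU _ _ _

lemma UU_add_out {f c : Fr σ K} (hc : Out pts B c) : UU pts B (f + c) ≤ UU pts B f := by
  obtain ⟨⟨a, ha⟩, hc⟩ := hc
  refine UU_le (one_mem_UU _ _ _) ?_ ?_ ?_
  · rw [evL_add, ha]
    exact Submodule.add_mem _ (ev_mem_UU _ _ _) (Submodule.smul_mem _ _ (one_mem_UU _ _ _))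
  · have h : evL pts (f + c) * evL pts (f + c) = evL pts f * evL pts f +
        (2 * a) • evL pts f + (a * a) • 1 := by
      rw [evL_add, ha]
      funext x
      simp
      ring
    rw [h]
    exact Submodule.add_mem _ (Submodule.add_mem _ (sq_mem_UU _ _ _)
      (Submodule.smul_mem _ _ (ev_mem_UU _ _ _))) (Submodule.smul_mem _ _ (one_mem_UU _ _ _))
  · intro v hv
    obtain ⟨b, hb⟩ := hc v hv
    rw [DD_add, evL_add, hb]
    exact Submodule.add_mem _ (dev_mem_UU _ _ _ v hv)
      (Submodule.smul_mem _ _ (one_mem_UU _ _ _))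

lemma UU_mul_out {f c : Fr σ K} (hc : Out pts B c) : UU pts B (f * c) ≤ UU pts B f := by
  obtain ⟨⟨a, ha⟩, hc⟩ := hc
  have h0 : ∀ g : Q → Fr σ K, g * (a • 1) = a • g := by
    intro g; funext x; simp [mul_comm]
  refine UU_le (one_mem_UU _ _ _) ?_ ?_ ?_
  · rw [evL_mul, ha, h0]
    exact Submodule.smul_mem _ _ (ev_mem_UU _ _ _)
  · have h : evL pts (f * c) * evL pts (f * c) = (a * a) • (evL pts f * evL pts f) := by
      rw [evL_mul, ha]
      funext x
      simp
      ring
    rw [h]
    exact Submodule.smul_mem _ _ (sq_mem_UU _ _ _)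
  · intro v hv
    obtain ⟨b, hb⟩ := hc v hv
    have h : evL pts (DD v (f * c)) = b • evL pts f + a • evL pts (DD v f) := by
      rw [DD_mul, evL_add, evL_mul, evL_mul, hb, ha]
      funext x
      simp [mul_comm]
    rw [h]
    exact Submodule.add_mem _ (Submodule.smul_mem _ _ (ev_mem_UU _ _ _))
      (Submodule.smul_mem _ _ (dev_mem_UU _ _ _ v hv))

lemma UU_div_out {f c : Fr σ K} (hc : Out pts B c) : UU pts B (f / c) ≤ UU pts B f := by
  rw [div_eq_mul_one_div]
  exact UU_mul_out hc.inv

lemma finrank_UU_out_div {f c : Fr σ K} (hc : Out pts B c) :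
    Module.finrank (Fr σ K) (UU pts B (c / f)) ≤ Module.finrank (Fr σ K) (UU pts B f) := by
  by_cases h0 : f = 0
  · rw [h0, div_zero]
  · obtain ⟨⟨a, ha⟩, hc⟩ := hc
    have hne : ∀ x, evL pts f x ≠ 0 := evL_apply_ne_zero pts h0
    have h1 : UU pts B (c / f) ≤ (UU pts B f).map (mulL ((evL pts f)⁻¹ * (evL pts f)⁻¹)) := by
      refine UU_le ?_ ?_ ?_ ?_
      · refine ⟨_, sq_mem_UU _ _ _, ?_⟩
        rw [mulL_apply]
        funext x
        have := hne x
        simp only [Pi.mul_apply, Pi.inv_apply, Pi.one_apply]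
        field_simp
      · refine ⟨a • evL pts f, Submodule.smul_mem _ _ (ev_mem_UU _ _ _), ?_⟩
        rw [mulL_apply, evL_div, ha]
        funext x
        have := hne x
        simp only [Pi.mul_apply, Pi.inv_apply, Pi.one_apply, Pi.smul_apply, smul_eq_mul,
          Pi.div_apply]
        field_simp
      · refine ⟨(a * a) • 1, Submodule.smul_mem _ _ (one_mem_UU _ _ _), ?_⟩
        rw [mulL_apply, evL_div, ha]
        funext x
        have := hne x
        simp only [Pi.mul_apply, Pi.inv_apply, Pi.one_apply, Pi.smul_apply, smul_eq_mul,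
          Pi.div_apply]
        field_simp
      · intro v hv
        obtain ⟨b, hb⟩ := hc v hv
        refine ⟨b • evL pts f - a • evL pts (DD v f), Submodule.sub_mem _
          (Submodule.smul_mem _ _ (ev_mem_UU _ _ _))
          (Submodule.smul_mem _ _ (dev_mem_UU _ _ _ v hv)), ?_⟩
        rw [mulL_apply, DD_div v c f h0, evL_sub, evL_mul, evL_mul, evL_inv, evL_div, evL_pow,
          ha, hb]
        funext x
        have := hne x
        simp only [Pi.mul_apply, Pi.inv_apply, Pi.one_apply, Pi.smul_apply, smul_eq_mul,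
          Pi.div_apply, Pi.sub_apply, Pi.pow_apply]
        field_simp
    exact (Submodule.finrank_mono h1).trans (Submodule.finrank_map_le _ _)

lemma finrank_UU_zero (f : Fr σ K) :
    Module.finrank (Fr σ K) (UU pts B (0 : Fr σ K)) ≤ Module.finrank (Fr σ K) (UU pts B f) :=
  Submodule.finrank_mono (UU_zero_le f)

lemma finrank_UU_add [Nonempty Q] (f g : Fr σ K) :
    Module.finrank (Fr σ K) (UU pts B (f + g)) ≤
      Module.finrank (Fr σ K) (UU pts B f) + Module.finrank (Fr σ K) (UU pts B g) := by
  have h1 : UU pts B (f + g) ≤ (UU pts B f ⊔ UU pts B g) ⊔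
      Submodule.span (Fr σ K) {evL pts f * evL pts g} := by
    refine UU_le ?_ ?_ ?_ ?_
    · exact Submodule.mem_sup_left (Submodule.mem_sup_left (one_mem_UU _ _ _))
    · rw [evL_add]
      exact Submodule.mem_sup_left (Submodule.add_mem_sup (ev_mem_UU _ _ _) (ev_mem_UU _ _ _))
    · have h : evL pts (f + g) * evL pts (f + g) =
          (evL pts f * evL pts f + evL pts g * evL pts g) +
            (2 : Fr σ K) • (evL pts f * evL pts g) := by
        rw [evL_add]
        funext x
        simp
        ring
      rw [h]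
      exact Submodule.add_mem_sup (Submodule.add_mem_sup (sq_mem_UU _ _ _) (sq_mem_UU _ _ _))
        (Submodule.smul_mem _ _ (Submodule.mem_span_singleton_self _))
    · intro v hv
      rw [DD_add, evL_add]
      exact Submodule.mem_sup_left (Submodule.add_mem_sup (dev_mem_UU _ _ _ v hv)
        (dev_mem_UU _ _ _ v hv))
  have h2 := Submodule.finrank_mono h1
  have h3 := finrank_sup_le (UU pts B f ⊔ UU pts B g)
      (Submodule.span (Fr σ K) {evL pts f * evL pts g})
  have h4 := finrank_sup_of_common (V := UU pts B f) (W := UU pts B g) (w := 1) one_ne_zero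
    (one_mem_UU _ _ _) (one_mem_UU _ _ _)
  have h5 : Module.finrank (Fr σ K) (Submodule.span (Fr σ K) {evL pts f * evL pts g}) ≤ 1 := by
    refine (finrank_span_le_card _).trans ?_
    simp
  omega

lemma finrank_UU_pos [Nonempty Q] (f : Fr σ K) : 1 ≤ Module.finrank (Fr σ K) (UU pts B f) := by
  have h1 : Submodule.span (Fr σ K) {(1 : Q → Fr σ K)} ≤ UU pts B f := by
    rw [Submodule.span_singleton_le_iff_mem]
    exact one_mem_UU _ _ _
  have h2 := Submodule.finrank_mono h1
  rwa [finrank_span_singleton one_ne_zero] at h2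

lemma finrank_span_pair (u w : Q → Fr σ K) :
    Module.finrank (Fr σ K) (Submodule.span (Fr σ K) {u, w}) ≤ 2 := by
  classical
  have h3 : ({u, w} : Set (Q → Fr σ K)) = (({u, w} : Finset (Q → Fr σ K)) : Set (Q → Fr σ K)) := by
    simp
  rw [h3]
  refine (finrank_span_finset_le_card _).trans ?_
  exact Finset.card_le_two

lemma finrank_UU_mul [Nonempty Q] (f g : Fr σ K) :
    Module.finrank (Fr σ K) (UU pts B (f * g)) ≤
      Module.finrank (Fr σ K) (UU pts B f) + Module.finrank (Fr σ K) (UU pts B g) + 1 := by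
  by_cases h0 : f * g = 0
  · rw [h0]
    have := finrank_UU_zero (pts := pts) (B := B) f
    omega
  have h1 : UU pts B (f * g) ≤ ((UU pts B f).map (mulL (evL pts g)) ⊔
      (UU pts B g).map (mulL (evL pts f))) ⊔
      Submodule.span (Fr σ K) {1, evL pts (f * g) * evL pts (f * g)} := by
    refine UU_le ?_ ?_ ?_ ?_
    · exact Submodule.mem_sup_right (Submodule.subset_span (by simp))
    · refine Submodule.mem_sup_left (Submodule.mem_sup_left ⟨_, ev_mem_UU _ _ _, ?_⟩)
      rw [mulL_apply, evL_mul, mul_comm]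
    · exact Submodule.mem_sup_right (Submodule.subset_span (by simp))
    · intro v hv
      rw [DD_mul, evL_add, add_comm]
      refine Submodule.mem_sup_left (Submodule.add_mem_sup ?_ ?_)
      · exact ⟨_, dev_mem_UU _ _ _ v hv, by rw [mulL_apply, evL_mul]⟩
      · exact ⟨_, dev_mem_UU _ _ _ v hv, by rw [mulL_apply, evL_mul]⟩
  have h2 := Submodule.finrank_mono h1
  have h3 := finrank_sup_le ((UU pts B f).map (mulL (evL pts g)) ⊔
      (UU pts B g).map (mulL (evL pts f)))
      (Submodule.span (Fr σ K) {1, evL pts (f * g) * evL pts (f * g)})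
  have h4 := finrank_sup_of_common (V := (UU pts B f).map (mulL (evL pts g)))
    (W := (UU pts B g).map (mulL (evL pts f))) (w := evL pts (f * g)) (evL_ne_zero pts h0)
    ⟨evL pts f, ev_mem_UU _ _ _, by rw [mulL_apply, evL_mul, mul_comm]⟩
    ⟨evL pts g, ev_mem_UU _ _ _, by rw [mulL_apply, evL_mul]⟩
  have h5 := finrank_span_pair 1 (evL pts (f * g) * evL pts (f * g))
  have h6 : Module.finrank (Fr σ K) ((UU pts B f).map (mulL (evL pts g))) ≤
      Module.finrank (Fr σ K) (UU pts B f) := Submodule.finrank_map_le _ _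
  have h7 : Module.finrank (Fr σ K) ((UU pts B g).map (mulL (evL pts f))) ≤
      Module.finrank (Fr σ K) (UU pts B g) := Submodule.finrank_map_le _ _
  omega

lemma finrank_UU_div [Nonempty Q] (f g : Fr σ K) :
    Module.finrank (Fr σ K) (UU pts B (f / g)) ≤
      Module.finrank (Fr σ K) (UU pts B f) + Module.finrank (Fr σ K) (UU pts B g) + 1 := by
  by_cases h0 : f / g = 0
  · rw [h0]
    have := finrank_UU_zero (pts := pts) (B := B) f
    omega
  have hg : g ≠ 0 := by
    rintro rfl
    exact h0 (div_zero _)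
  have hne : ∀ x, evL pts g x ≠ 0 := evL_apply_ne_zero pts hg
  have h1 : UU pts B (f / g) ≤ ((UU pts B f).map (mulL (evL pts g)⁻¹) ⊔
      (UU pts B g).map (mulL (evL pts (f / g ^ 2)))) ⊔
      Submodule.span (Fr σ K) {1, evL pts (f / g) * evL pts (f / g)} := by
    refine UU_le ?_ ?_ ?_ ?_
    · exact Submodule.mem_sup_right (Submodule.subset_span (by simp))
    · refine Submodule.mem_sup_left (Submodule.mem_sup_left ⟨_, ev_mem_UU _ _ _, ?_⟩)
      rw [mulL_apply, evL_div, mul_comm, div_eq_mul_inv]
    · exact Submodule.mem_sup_right (Submodule.subset_span (by simp))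
    · intro v hv
      rw [DD_div v f g hg, evL_sub]
      refine Submodule.mem_sup_left (Submodule.sub_mem _ (Submodule.mem_sup_left ?_)
        (Submodule.mem_sup_right ?_))
      · exact ⟨_, dev_mem_UU _ _ _ v hv, by rw [mulL_apply, evL_mul, evL_inv]⟩
      · exact ⟨_, dev_mem_UU _ _ _ v hv, by rw [mulL_apply, evL_mul]⟩
  have h2 := Submodule.finrank_mono h1
  have h3 := finrank_sup_le ((UU pts B f).map (mulL (evL pts g)⁻¹) ⊔
      (UU pts B g).map (mulL (evL pts (f / g ^ 2))))
      (Submodule.span (Fr σ K) {1, evL pts (f / g) * evL pts (f / g)})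
  have h4 := finrank_sup_of_common (V := (UU pts B f).map (mulL (evL pts g)⁻¹))
    (W := (UU pts B g).map (mulL (evL pts (f / g ^ 2)))) (w := evL pts (f / g))
    (evL_ne_zero pts h0)
    ⟨evL pts f, ev_mem_UU _ _ _, by rw [mulL_apply, evL_div, mul_comm, div_eq_mul_inv]⟩
    ⟨evL pts g, ev_mem_UU _ _ _, by
      rw [mulL_apply, ← evL_mul]
      congr 1
      field_simp⟩
  have h5 := finrank_span_pair 1 (evL pts (f / g) * evL pts (f / g))
  have h6 : Module.finrank (Fr σ K) ((UU pts B f).map (mulL (evL pts g)⁻¹)) ≤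
      Module.finrank (Fr σ K) (UU pts B f) := Submodule.finrank_map_le _ _
  have h7 : Module.finrank (Fr σ K) ((UU pts B g).map (mulL (evL pts (f / g ^ 2)))) ≤
      Module.finrank (Fr σ K) (UU pts B g) := Submodule.finrank_map_le _ _
  omega

lemma finrank_UU_leaf (f : Fr σ K) (hf : ∀ v, v ∉ B → DD v f = 0) :
    Module.finrank (Fr σ K) (UU pts B f) ≤ 3 := by
  classical
  have h2 : UU pts B f ≤
      Submodule.span (Fr σ K) {1, evL pts f, evL pts f * evL pts f} := by
    refine UU_le (Submodule.subset_span (by simp)) (Submodule.subset_span (by simp))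
      (Submodule.subset_span (by simp)) ?_
    intro v hv
    rw [hf v hv, evL_zero]
    exact Submodule.zero_mem _
  refine (Submodule.finrank_mono h2).trans ?_
  have h5 : ({1, evL pts f, evL pts f * evL pts f} : Set (Q → Fr σ K)) =
      (({1, evL pts f, evL pts f * evL pts f} : Finset (Q → Fr σ K)) :
        Set (Q → Fr σ K)) := by simp
  rw [h5]
  exact (finrank_span_finset_le_card _).trans Finset.card_le_three

/-- the main rank bound for formulas with division -/
theorem rank_bound_r [Nonempty Q] [DecidableEq σ] (pts : Q → σ → K) (B : Finset σ)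
    (hB : ∀ v, v ∉ B → ∀ x x', pts x v = pts x' v) (F : RFml σ K) :
    (∑ v ∈ B, F.occ v = 0 → Out pts B F.val) ∧
    (1 ≤ ∑ v ∈ B, F.occ v →
      Module.finrank (Fr σ K) (UU pts B F.val) + 1 ≤ 4 * ∑ v ∈ B, F.occ v) := by
  have hcomb : ∀ (f g h : Fr σ K) (ℓ₁ ℓ₂ : ℕ),
      (Out pts B f → Out pts B g → Out pts B h) →
      (Out pts B g → Module.finrank (Fr σ K) (UU pts B h) ≤
        Module.finrank (Fr σ K) (UU pts B f)) →
      (Out pts B f → Module.finrank (Fr σ K) (UU pts B h) ≤
        Module.finrank (Fr σ K) (UU pts B g)) →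
      Module.finrank (Fr σ K) (UU pts B h) ≤
        Module.finrank (Fr σ K) (UU pts B f) + Module.finrank (Fr σ K) (UU pts B g) + 1 →
      ((ℓ₁ = 0 → Out pts B f) ∧
        (1 ≤ ℓ₁ → Module.finrank (Fr σ K) (UU pts B f) + 1 ≤ 4 * ℓ₁)) →
      ((ℓ₂ = 0 → Out pts B g) ∧
        (1 ≤ ℓ₂ → Module.finrank (Fr σ K) (UU pts B g) + 1 ≤ 4 * ℓ₂)) →
      ((ℓ₁ + ℓ₂ = 0 → Out pts B h) ∧
        (1 ≤ ℓ₁ + ℓ₂ → Module.finrank (Fr σ K) (UU pts B h) + 1 ≤ 4 * (ℓ₁ + ℓ₂))) := by
    intro f g h ℓ₁ ℓ₂ hfg hg hf hh h1 h2
    refine ⟨fun h0 => ?_, fun h0 => ?_⟩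
    · exact hfg (h1.1 (by omega)) (h2.1 (by omega))
    · by_cases e1 : ℓ₁ = 0
      · have e3 := hf (h1.1 e1)
        have e4 := h2.2 (by omega)
        omega
      · by_cases e2 : ℓ₂ = 0
        · have e3 := hg (h2.1 e2)
          have e4 := h1.2 (by omega)
          omega
        · have e3 := h1.2 (by omega)
          have e4 := h2.2 (by omega)
          omega
  have hconst : ∀ c : K, evL pts (algebraMap _ (Fr σ K) (C c : MvPolynomial σ K))
      = (algebraMap _ (Fr σ K) (C c : MvPolynomial σ K)) • 1 := by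
    intro c
    funext x
    simp only [evL, tau_algebraMap, shift_C, Pi.smul_apply, Pi.one_apply, smul_eq_mul, mul_one]
  have hconst' : ∀ c : K, Out pts B (algebraMap _ (Fr σ K) (C c : MvPolynomial σ K)) := by
    intro c
    refine ⟨⟨_, hconst c⟩, fun v _ => ⟨0, ?_⟩⟩
    rw [DD_algebraMap]
    simp [evL_zero]
  induction F with
  | var w =>
    simp only [RFml.occ, RFml.val]
    by_cases hw : w ∈ B
    · have h1 : ∑ v ∈ B, (if v = w then 1 else 0) = 1 := by simp [hw]
      rw [h1]
      refine ⟨fun h => absurd h one_ne_zero, fun _ => ?_⟩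
      exact Nat.add_le_add_right (finrank_UU_leaf (pts := pts) (B := B)
        (algebraMap _ (Fr σ K) (X w : MvPolynomial σ K)) (fun v hv => by
          have hne : w ≠ v := fun h => hv (h ▸ hw)
          rw [DD_algebraMap, pderiv_X_of_ne hne, map_zero])) 1
    · have h1 : ∑ v ∈ B, (if v = w then 1 else 0) = 0 := by simp [hw]
      rw [h1]
      refine ⟨fun _ => ?_, fun h => absurd h (by norm_num)⟩
      obtain ⟨x0⟩ := ‹Nonempty Q›
      refine ⟨⟨algebraMap _ (Fr σ K) (X w + C (pts x0 w) : MvPolynomial σ K), ?_⟩,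
        fun v _ => ?_⟩
      · funext x
        simp only [evL, tau_algebraMap, shift_X, Pi.smul_apply, Pi.one_apply, smul_eq_mul,
          mul_one, hB w hw x x0]
      · rw [DD_algebraMap]
        by_cases hvw : w = v
        · subst hvw
          exact ⟨1, by rw [pderiv_X_self, map_one, evL_one, one_smul]⟩
        · exact ⟨0, by rw [pderiv_X_of_ne hvw, map_zero, evL_zero, zero_smul]⟩
  | const c =>
    simp only [RFml.occ, RFml.val, Finset.sum_const_zero]
    exact ⟨fun _ => hconst' c, fun h => absurd h (by norm_num)⟩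
  | add F G hF hG =>
    simp only [RFml.occ, RFml.val, Finset.sum_add_distrib]
    refine hcomb F.val G.val _ _ _ Out.add (fun h => Submodule.finrank_mono (UU_add_out h))
      (fun h => ?_) ?_ hF hG
    · rw [add_comm]; exact Submodule.finrank_mono (UU_add_out h)
    · have := finrank_UU_add (pts := pts) (B := B) F.val G.val
      omega
  | mul F G hF hG =>
    simp only [RFml.occ, RFml.val, Finset.sum_add_distrib]
    refine hcomb F.val G.val _ _ _ Out.mul (fun h => Submodule.finrank_mono (UU_mul_out h))
      (fun h => ?_) (finrank_UU_mul _ _) hF hG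
    rw [mul_comm]; exact Submodule.finrank_mono (UU_mul_out h)
  | div F G hF hG =>
    simp only [RFml.occ, RFml.val, Finset.sum_add_distrib]
    exact hcomb F.val G.val _ _ _ Out.div (fun h => Submodule.finrank_mono (UU_div_out h))
      (fun h => finrank_UU_out_div h) (finrank_UU_div _ _) hF hG

/-- linearly independent derivatives bound the number of leaves in `B` from below -/
theorem card_le_occ_r' [Nonempty Q] [DecidableEq σ] (pts : Q → σ → K) (B : Finset σ)
    (hB : ∀ v, v ∉ B → ∀ x x', pts x v = pts x' v) (F : RFml σ K)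
    {W : Type*} [Fintype W] (w : W → σ) (hw : ∀ i, w i ∉ B)
    (hli : LinearIndependent (Fr σ K) (fun i => evL pts (DD (w i) F.val)))
    (hW : 2 ≤ Fintype.card W) :
    Fintype.card W ≤ 4 * ∑ v ∈ B, F.occ v := by
  have h1 : Fintype.card W ≤ Module.finrank (Fr σ K) (UU pts B F.val) := by
    have h2 : LinearIndependent (Fr σ K) (fun i => (⟨evL pts (DD (w i) F.val),
        dev_mem_UU pts B F.val (w i) (hw i)⟩ : UU pts B F.val)) := by
      apply LinearIndependent.of_comp (UU pts B F.val).subtype
      exact hli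
    exact h2.fintype_card_le_finrank
  obtain ⟨h3, h4⟩ := rank_bound_r pts B hB F
  by_cases h0 : ∑ v ∈ B, F.occ v = 0
  · have h5 := Submodule.finrank_mono (h3 h0).mem_span
    have h6 : Module.finrank (Fr σ K)
        (Submodule.span (Fr σ K) {(1 : Q → Fr σ K)}) ≤ 1 := by
      refine (finrank_span_le_card _).trans ?_
      simp
    omega
  · have := h4 (by omega)
    omega

/-- the same with evaluations of the partial derivatives of the computed polynomial -/
theorem card_le_occ_r [Nonempty Q] [DecidableEq Q] [DecidableEq σ] (pts : Q → σ → K)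
    (B : Finset σ)
    (hB : ∀ v, v ∉ B → ∀ x x', pts x v = pts x' v) (F : RFml σ K) (f : MvPolynomial σ K)
    (hF : F.val = algebraMap _ _ f)
    {W : Type*} [Fintype W] [DecidableEq W] (w : W → σ) (hw : ∀ i, w i ∉ B)
    (hli : LinearIndependent K (fun i x => eval (pts x) (pderiv (w i) f)))
    (hW : 2 ≤ Fintype.card W) :
    Fintype.card W ≤ 4 * ∑ v ∈ B, F.occ v := by
  refine card_le_occ_r' pts B hB F w hw ?_ hW
  have h1 := transfer (eval (0 : σ → K)) (fun c => ⟨C c, by simp⟩)
    (algebraMap (MvPolynomial σ K) (Fr σ K)) (IsFractionRing.injective _ _)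
    (fun (i : W) (x : Q) => shift (pts x) (pderiv (w i) f)) (by
      simp only [eval_zero_shift]
      exact hli)
  have h2 : (fun i => evL pts (DD (w i) F.val)) = fun (i : W) (x : Q) =>
      algebraMap (MvPolynomial σ K) (Fr σ K) (shift (pts x) (pderiv (w i) f)) := by
    funext i x
    simp only [evL, hF, DD_algebraMap, tau_algebraMap]
  rw [h2]
  exact h1

end rank

end H1FS
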