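import Pool.Agent.Helper1x.CL.TopA

/-!
# Formula size of the permanent: statements

Goal: every arithmetic formula for `perm_n` over a field of characteristic zero has at least
`c n⁴ / log n` leaves (Kalorkoti's method with blocks of `2 log n` entries).

## The arrays

`Lm a r x` has rows `Fin a ⊕ Fin (r+1)` and columns `Fin a ⊕ Fin r`: the row of a special
index `t` has `x t` at the special column `t`, `0` at the other special columns and `1` at all
ordinary columns; the row of an ordinary index `j` has the `t`-th binary digit of `j` at the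
special column `t` and `1` at all ordinary columns.  `Pj a r x j` is the permanent of `Lm a r x`
after removal of the row `j`.

## Proof sketch for `StmInd`

By T1 and T2 (see `CL/TopStm.lean`), with `Ω = ∑_{ord} X`, `D_j = ∑_t u_{t,j} X_t`,
`Pj x j = top_{Ord} (top_{Fin a} (∏_t (x_t X_t + Ω) ∏_{j' ≠ j} (D_{j'} + Ω)))`; by homogeneity
the inner `top` is `Ω^r * c` with `c = top (∏_t (x_t X_t + 1) ∏_{j' ≠ j} (D_{j'} + 1))`, and
`top_{Ord} (Ω^r) = r!`.  So `Pj x j = r! * top (∏_t (1 + x_t X_t) ∏_{j' ≠ j} (1 + D_{j'}))`.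
If `∑_j a_j Pj x j = 0` for all `x ∈ {0,1}^a`, then all squarefree coefficients of
`g = ∑_j a_j ∏_{j' ≠ j} (1 + D_{j'})` vanish (induction on the support of `x`).  Polynomials all
of whose squarefree coefficients vanish form an ideal `I`; modulo `I` the inverse of `1 + D_j` is
`E_j = ∑_A (-1)^{|A|} |A|! w_A(j) X^A`, `w_A(j) = ∏_{t ∈ A} u_{t,j}`.  Multiply `g` by all `E_j`:
`∑_j a_j E_j ∈ I`, so `∑_j a_j w_A(j) = 0` for all `A`; since `u_{t,j}` is the `t`-th digit of
`j < 2^a`, the functions `w_A` span all functions of `j`, hence `a = 0`.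

## Proof sketch for `StmBlock`

By T1, `rperm M = top (∏_r ∑_c M r c X_c)`; the rows of the first block involve only the first
block of variables, the row `i` gives `X_{inl (inr j)}`, the other rows of the second block
involve only the second block of variables; Fubini (T2).  The first factor
`top (X_j ∏_r R_r)` is `rperm` of an array indexed by `Option _`; use `σ ↦ σ⁻¹` and
`Equiv.optionSubtype`.
-/

namespace H1FS

open MvPolynomial H1CL

universe u

/-- the array `L` -/
def Lm (a r : ℕ) {κ : Type u} [CommRing κ] (x : Fin a → κ) :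
    (Fin a ⊕ Fin (r + 1)) → (Fin a ⊕ Fin r) → κ
  | Sum.inl t, Sum.inl t' => if t = t' then x t else 0
  | Sum.inl _, Sum.inr _ => 1
  | Sum.inr j, Sum.inl t => if j.1.testBit t.1 then 1 else 0
  | Sum.inr _, Sum.inr _ => 1

/-- permanent of `L` with the row `j` removed -/
noncomputable def Pj (a r : ℕ) {κ : Type u} [CommRing κ] (x : Fin a → κ) (j : Fin (r + 1)) : κ :=
  rperm (fun (c : {c : Fin a ⊕ Fin (r + 1) // c ≠ Sum.inr j}) (d : Fin a ⊕ Fin r) =>
    Lm a r x c.1 d)

/-- indicator vector -/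
def ind (a : ℕ) (κ : Type u) [CommRing κ] (U : Finset (Fin a)) : Fin a → κ :=
  fun t => if t ∈ U then 1 else 0

/-- **Job IND** -/
def StmInd : Prop :=
  ∀ (κ : Type) [Field κ] [CharZero κ] (a r : ℕ) (_ : r + 1 ≤ 2 ^ a),
    LinearIndependent κ (fun (j : Fin (r + 1)) (U : Finset (Fin a)) => Pj a r (ind a κ U) j)

/-- rows of the big matrix -/
abbrev Rw (a r₁ r₂ : ℕ) : Type := (Fin a ⊕ Fin r₁) ⊕ (Fin a ⊕ Fin (r₂ + 1))

/-- columns of the big matrix -/
abbrev Cl (a r₁ r₂ : ℕ) : Type := (Fin a ⊕ Fin (r₁ + 1)) ⊕ (Fin a ⊕ Fin r₂)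

/-- the big matrix: `Lᵀ` and `L` as diagonal blocks -/
def bigM (a r₁ r₂ : ℕ) {κ : Type u} [CommRing κ] (x₁ x₂ : Fin a → κ) :
    Rw a r₁ r₂ → Cl a r₁ r₂ → κ
  | Sum.inl r, Sum.inl c => Lm a r₁ x₁ c r
  | Sum.inr r, Sum.inr c => Lm a r₂ x₂ r c
  | Sum.inl _, Sum.inr _ => 0
  | Sum.inr _, Sum.inl _ => 0

/-- **Job BLOCK** -/
def StmBlock : Prop :=
  ∀ (κ : Type) [CommRing κ] (a r₁ r₂ : ℕ) (x₁ x₂ : Fin a → κ) (i : Fin (r₂ + 1))
    (j : Fin (r₁ + 1)),
    rperm (Function.update (bigM a r₁ r₂ x₁ x₂) (Sum.inr (Sum.inr i))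
      (Pi.single (Sum.inl (Sum.inr j)) 1)) = Pj a r₁ x₁ j * Pj a r₂ x₂ i

end H1FS
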